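import Pool.Agent.NH11.Ma.Def

/-! Algebraic lemmas in characteristic two. -/

namespace Pool.Agent.NH11.Ma

variable {F : Type*} [Field F]

theorem tr_add [CharP F 2] (h : ℕ) (x y : F) : tr h (x + y) = tr h x + tr h y := by
  unfold tr
  rw [← Finset.sum_add_distrib]
  refine Finset.sum_congr rfl fun i _ => ?_
  exact add_pow_char_pow x y 2 i

theorem tr_zero (h : ℕ) : tr h (0 : F) = 0 := by
  unfold tr
  refine Finset.sum_eq_zero fun i _ => ?_
  exact zero_pow (by positivity)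

theorem tr_sq {h : ℕ} (hF : ∀ x : F, x ^ 2 ^ h = x) (x : F) : tr h (x ^ 2) = tr h x := by
  unfold tr
  have h1 : ∀ i, (x ^ 2) ^ 2 ^ i = x ^ 2 ^ (i + 1) := fun i => by
    rw [← pow_mul, pow_succ', mul_comm]
  simp only [h1]
  have h2 := Finset.sum_range_succ' (fun i => x ^ 2 ^ i) h
  have h3 := Finset.sum_range_succ (fun i => x ^ 2 ^ i) h
  rw [h3] at h2
  simp only [hF x, pow_zero, pow_one] at h2
  have := add_right_cancel h2
  exact this.symm

theorem tr_sq_add [CharP F 2] {h : ℕ} (hF : ∀ x : F, x ^ 2 ^ h = x) (x : F) :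
    tr h (x ^ 2 + x) = 0 := by
  rw [tr_add, tr_sq hF, CharTwo.add_self_eq_zero]

theorem add_eq_zero2 [CharP F 2] {x y : F} (h : x + y = 0) : x = y := by
  have := CharTwo.add_self_eq_zero y
  linear_combination h - this

theorem sq_inj2 [CharP F 2] {x y : F} (h : x ^ 2 = y ^ 2) : x = y := by
  have h2 : (2 : F) = 0 := CharTwo.two_eq_zero
  have : (x - y) ^ 2 = 0 := by linear_combination h - (x * y - y ^ 2) * h2
  exact sub_eq_zero.1 (pow_eq_zero_iff (two_ne_zero) |>.1 this)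

theorem exists_sqrt {h : ℕ} (h0 : h ≠ 0) (hF : ∀ x : F, x ^ 2 ^ h = x) (x : F) :
    ∃ s : F, s ^ 2 = x := by
  obtain ⟨m, rfl⟩ := Nat.exists_eq_succ_of_ne_zero h0
  refine ⟨x ^ 2 ^ m, ?_⟩
  rw [← pow_mul, ← pow_succ]
  exact hF x

/-- A form `a x^2 + x y + b y^2` with `Tr (a b) = 1` is anisotropic. -/
theorem aniso [CharP F 2] {h : ℕ} (hF : ∀ x : F, x ^ 2 ^ h = x) {a b x y : F}
    (hab : tr h (a * b) = 1) (hq : a * x ^ 2 + x * y + b * y ^ 2 = 0) : x = 0 ∧ y = 0 := by
  by_cases hy : y = 0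
  · subst hy
    have ha : a ≠ 0 := by
      rintro rfl
      rw [zero_mul, tr_zero] at hab
      exact zero_ne_one hab
    have h1 : a * x ^ 2 = 0 := by linear_combination hq
    rcases mul_eq_zero.1 h1 with h2 | h2
    · exact absurd h2 ha
    · exact ⟨pow_eq_zero_iff (two_ne_zero) |>.1 h2, rfl⟩
  · exfalso
    have h2 : (2 : F) = 0 := CharTwo.two_eq_zero
    have h1 : (a * x / y) ^ 2 + a * x / y = a * b := by
      field_simp
      linear_combination a * hq - a * b * y ^ 2 * h2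
    rw [← h1, tr_sq_add hF] at hab
    exact zero_ne_one hab

theorem comp_comm' (c d : Par F) : comp c d = comp d c := by
  unfold comp
  rw [add_comm c.l d.l, add_comm (c.a * c.l), add_comm (c.b * c.l)]

/-- The conics of a closed set are pairwise disjoint. -/
theorem disjoint_conics [CharP F 2] {h : ℕ} (hF : ∀ x : F, x ^ 2 ^ h = x) {S : Set (Par F)}
    (hS : IsClosedSeven h S) {c d : Par F} (hc : c ∈ S) (hd : d ∈ S) (hcd : c ≠ d)
    {v : Fin 3 → F} (h1 : v ∈ conic c) (h2 : v ∈ conic d) : False := by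
  obtain ⟨hv, h1⟩ := h1
  obtain ⟨-, h2⟩ := h2
  have hl := hS.l_inj c hc d hd hcd
  have hμ : c.l + d.l ≠ 0 := fun h => hl (add_eq_zero2 h)
  have t1 := hS.trace c hc
  have t2 := hS.trace d hd
  have t3 := hS.trace _ (hS.closed c hc d hd hcd)
  have two : (2 : F) = 0 := CharTwo.two_eq_zero
  set T1 := (d.l * c.a + c.l * d.a) / (c.l + d.l) with hT1
  set T2 := (d.l * c.b + c.l * d.b) / (c.l + d.l) with hT2
  have e1 : T1 * T2 = (comp c d).a * (comp c d).b + c.a * c.b + d.a * d.b := by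
    simp only [hT1, hT2, comp]
    field_simp
    linear_combination (-(c.a * c.l ^ 2 * c.b) - (d.a * d.l ^ 2 * d.b)
      - c.l * d.l * c.a * c.b - c.l * d.l * d.a * d.b) * two
  have t4 : tr h (T1 * T2) = 1 := by
    rw [e1, tr_add, tr_add, t1, t2, t3]
    linear_combination two
  have e2 : T1 * v 0 ^ 2 + v 0 * v 1 + T2 * v 1 ^ 2 = 0 := by
    simp only [hT1, hT2]
    field_simp
    linear_combination d.l * h1 + c.l * h2 - c.l * d.l * v 2 ^ 2 * two
  obtain ⟨hx, hy⟩ := aniso hF t4 e2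
  rw [hx, hy] at h1
  have h3 : c.l * v 2 ^ 2 = 0 := by linear_combination h1
  rcases mul_eq_zero.1 h3 with h4 | h4
  · exact hS.l_ne c hc h4
  · apply hv
    have hz := pow_eq_zero_iff (two_ne_zero) |>.1 h4
    funext i
    fin_cases i
    · exact hx
    · exact hy
    · exact hz

end Pool.Agent.NH11.Ma
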