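import Pool.Agent.NH11.Ma.Alg

/-! A quadratic form vanishing at five points of a conic is proportional to its form. -/

open Polynomial

namespace Pool.Agent.NH11.Ma

variable {F : Type*} [Field F]

theorem quartic_zero {c0 c1 c2 c3 c4 : F} (s : Finset F) (hs : 5 ≤ s.card)
    (h : ∀ t ∈ s, c4 * t ^ 4 + c3 * t ^ 3 + c2 * t ^ 2 + c1 * t + c0 = 0) :
    c4 = 0 ∧ c3 = 0 ∧ c2 = 0 ∧ c1 = 0 ∧ c0 = 0 := by
  set P : F[X] := C c4 * X ^ 4 + C c3 * X ^ 3 + C c2 * X ^ 2 + C c1 * X + C c0 with hP
  have hdeg : P.natDegree ≤ 4 := by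
    rw [hP]; compute_degree
  have h0 : P = 0 := by
    apply Polynomial.eq_zero_of_natDegree_lt_card_of_eval_eq_zero' P s
    · intro t ht
      rw [hP]
      simp only [eval_add, eval_mul, eval_C, eval_pow, eval_X]
      exact h t ht
    · omega
  have k : ∀ n, P.coeff n = 0 := fun n => by rw [h0, coeff_zero]
  refine ⟨?_, ?_, ?_, ?_, ?_⟩
  · have := k 4
    simpa [hP, coeff_X, coeff_C] using this
  · have := k 3
    simpa [hP, coeff_X, coeff_C] using this
  · have := k 2
    simpa [hP, coeff_X, coeff_C] using this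
  · have := k 1
    simpa [hP, coeff_X, coeff_C] using this
  · have := k 0
    simpa [hP, coeff_X, coeff_C] using this

theorem bezout [CharP F 2] {a b l A B C D E G : F} (hl : l ≠ 0) (s : Finset F) (hs : 5 ≤ s.card)
    (h : ∀ t ∈ s, ∃ z : F, l * z ^ 2 = a * t ^ 2 + t + b ∧
      A * t ^ 2 + B + C * z ^ 2 + D * t + E * (t * z) + G * z = 0) :
    E = 0 ∧ G = 0 ∧ A = D * a ∧ B = D * b ∧ C = D * l := by
  have two : (2 : F) = 0 := CharTwo.two_eq_zero
  obtain ⟨h4, h3, h2, h1, h0⟩ := quartic_zero (c4 := (l * A + C * a) ^ 2 + l * E ^ 2 * a)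
    (c3 := l * E ^ 2) (c2 := (l * D + C) ^ 2 + l * (E ^ 2 * b + G ^ 2 * a)) (c1 := l * G ^ 2)
    (c0 := (l * B + C * b) ^ 2 + l * G ^ 2 * b) s hs (by
      intro t ht
      obtain ⟨z, hz, hq⟩ := h t ht
      have e1 : l * (A * t ^ 2 + B + D * t) + C * (a * t ^ 2 + t + b) = l * (E * t + G) * z := by
        rw [← hz]
        linear_combination l * hq - l * (E * t + G) * z * two
      have e2 : (l * (A * t ^ 2 + B + D * t) + C * (a * t ^ 2 + t + b)) ^ 2 =
          l * (E * t + G) ^ 2 * (a * t ^ 2 + t + b) := by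
        rw [e1, ← hz]; ring
      linear_combination e2 + (l * (E * t + G) ^ 2 * (a * t ^ 2 + t + b)
        - l * E * G * t * (a * t ^ 2 + t + b)
        - (l * A + C * a) * (l * D + C) * t ^ 3 - (l * A + C * a) * (l * B + C * b) * t ^ 2
        - (l * D + C) * (l * B + C * b) * t) * two)
  have hE : E = 0 := by
    rcases mul_eq_zero.1 h3 with h | h
    · exact absurd h hl
    · exact pow_eq_zero_iff (two_ne_zero) |>.1 h
  have hG : G = 0 := by
    rcases mul_eq_zero.1 h1 with h | h
    · exact absurd h hl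
    · exact pow_eq_zero_iff (two_ne_zero) |>.1 h
  subst hE hG
  have k4 : l * A + C * a = 0 := by
    apply pow_eq_zero_iff (two_ne_zero) |>.1
    linear_combination h4
  have k2 : l * D + C = 0 := by
    apply pow_eq_zero_iff (two_ne_zero) |>.1
    linear_combination h2
  have k0 : l * B + C * b = 0 := by
    apply pow_eq_zero_iff (two_ne_zero) |>.1
    linear_combination h0
  have hC : C = D * l := by linear_combination k2 - D * l * two
  refine ⟨rfl, rfl, ?_, ?_, hC⟩
  · apply mul_left_cancel₀ hl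
    rw [hC] at k4
    linear_combination k4 - D * l * a * two
  · apply mul_left_cancel₀ hl
    rw [hC] at k0
    linear_combination k0 - D * l * b * two

end Pool.Agent.NH11.Ma
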