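import Pool.Agent.NH11.Ma.Grp

/-! Cyclicity and the order of the induced group. -/

namespace Pool.Agent.NH11.Ma

variable {F : Type*} [Field F]

theorem snd_injective [CharP F 2] [Finite F] {h : ℕ} (h0 : h ≠ 0) (hF : ∀ x : F, x ^ 2 ^ h = x)
    {S : Set (Par F)} (hS : IsClosedSeven h S) (hA : ¬ IsAffine S) :
    Function.Injective ((MonoidHom.snd (Equiv.Perm S) (RingAut F)).comp (pairGroup S).subtype) := by
  rw [injective_iff_map_eq_one]
  rintro ⟨⟨π, σ⟩, h1⟩ h2
  simp only [MonoidHom.comp_apply, Subgroup.coe_subtype, MonoidHom.coe_snd] at h2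
  subst h2
  have := one_of_linear h0 hF hS hA h1
  subst this
  rfl

theorem cyclic [CharP F 2] [Finite F] {h : ℕ} (h0 : h ≠ 0) (hF : ∀ x : F, x ^ 2 ^ h = x)
    {S : Set (Par F)} (hS : IsClosedSeven h S) (hA : ¬ IsAffine S) :
    IsCyclic (inducedGroup S) := by
  have := ringAut_cyclic (F := F)
  have h1 : IsCyclic (pairGroup S) := isCyclic_of_injective _ (snd_injective h0 hF hS hA)
  let φ : pairGroup S →* inducedGroup S :=
    { toFun := fun x => ⟨x.1.1, (mem_inducedGroup_iff _).2 ⟨x.1.2, x.2⟩⟩
      map_one' := rfl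
      map_mul' := fun _ _ => rfl }
  apply isCyclic_of_surjective φ
  rintro ⟨π, hπ⟩
  obtain ⟨σ, hσ⟩ := (mem_inducedGroup_iff _).1 hπ
  exact ⟨⟨(π, σ), hσ⟩, rfl⟩

theorem pow_h [CharP F 2] [Finite F] {h : ℕ} (h0 : h ≠ 0) (hF : ∀ x : F, x ^ 2 ^ h = x)
    {S : Set (Par F)} (hS : IsClosedSeven h S) (hA : ¬ IsAffine S) {π : Equiv.Perm S}
    (hπ : π ∈ inducedGroup S) : π ^ h = 1 := by
  obtain ⟨σ, hσ⟩ := (mem_inducedGroup_iff _).1 hπ
  have h1 := (pairGroup S).pow_mem hσ h
  rw [Prod.pow_mk, ringAut_pow hF σ] at h1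
  exact one_of_linear h0 hF hS hA h1

/-- The additive group formed by `0` and the values of `λ`. -/
def lGroup [CharP F 2] {h : ℕ} {S : Set (Par F)} (hS : IsClosedSeven h S) : AddSubgroup F where
  carrier := {x | x = 0 ∨ ∃ c ∈ S, c.l = x}
  zero_mem' := Or.inl rfl
  add_mem' := by
    rintro x y (rfl | ⟨c, hc, rfl⟩) hy
    · rw [zero_add]; exact hy
    · rcases hy with rfl | ⟨d, hd, rfl⟩
      · rw [add_zero]; exact Or.inr ⟨c, hc, rfl⟩
      · by_cases hcd : c = d
        · subst hcd
          exact Or.inl (CharTwo.add_self_eq_zero _)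
        · exact Or.inr ⟨_, hS.closed c hc d hd hcd, rfl⟩
  neg_mem' := by
    rintro x hx
    rw [CharTwo.neg_eq]
    exact hx

theorem card_lGroup [CharP F 2] {h : ℕ} {S : Set (Par F)} (hS : IsClosedSeven h S) :
    Nat.card (lGroup hS) = 8 := by
  have hfin : Finite S := Set.finite_of_ncard_ne_zero (by rw [hS.card]; norm_num)
  have e : Option S ≃ lGroup hS := by
    refine Equiv.ofBijective (fun o => match o with
      | none => ⟨0, Or.inl rfl⟩
      | some c => ⟨c.1.l, Or.inr ⟨c.1, c.2, rfl⟩⟩) ⟨?_, ?_⟩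
    · intro a b hab
      match a, b with
      | none, none => rfl
      | none, some c =>
        exfalso
        exact hS.l_ne _ c.2 (congrArg Subtype.val hab).symm
      | some c, none =>
        exfalso
        exact hS.l_ne _ c.2 (congrArg Subtype.val hab)
      | some c, some d =>
        have h1 : c.1.l = d.1.l := congrArg Subtype.val hab
        by_contra hne
        exact hS.l_inj _ c.2 _ d.2 (fun h => hne (by rw [Subtype.ext h])) h1
    · rintro ⟨x, (rfl | ⟨c, hc, rfl⟩)⟩
      · exact ⟨none, rfl⟩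
      · exact ⟨some ⟨c, hc⟩, rfl⟩
  rw [← Nat.card_congr e, Finite.card_option]
  rw [show Nat.card S = 7 from hS.card]

theorem exists_pow_le [CharP F 2] [Finite F] {h : ℕ} (h0 : h ≠ 0) (hF : ∀ x : F, x ^ 2 ^ h = x)
    {S : Set (Par F)} (hS : IsClosedSeven h S) {π : Equiv.Perm S}
    (hπ : π ∈ inducedGroup S) : ∃ n : ℕ, 0 < n ∧ n ≤ 7 ∧ π ^ n = 1 := by
  obtain ⟨σ, f, hf⟩ := (mem_inducedGroup_iff _).1 hπ
  obtain ⟨ω, hω0, hl⟩ := exists_mult h0 hF hS hf
  have hfin : Finite S := Set.finite_of_ncard_ne_zero (by rw [hS.card]; norm_num)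
  have hc7 : Nat.card S = 7 := hS.card
  -- the additive map that extends the action on `λ`
  let θ : F → F := fun x => ω * σ x
  have hθl : ∀ (n : ℕ) (c : S), θ^[n] c.1.l = ((π ^ n) c).1.l := by
    intro n
    induction n with
    | zero => intro c; simp
    | succ n ih =>
      intro c
      rw [Function.iterate_succ_apply, show θ c.1.l = (π c).1.l from (hl c).symm, ih]
      rw [pow_succ, Equiv.Perm.mul_apply]
  have hθadd : ∀ (n : ℕ) (x y : F), θ^[n] (x + y) = θ^[n] x + θ^[n] y := by
    intro n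
    induction n with
    | zero => intro x y; simp
    | succ n ih =>
      intro x y
      rw [Function.iterate_succ_apply, Function.iterate_succ_apply, Function.iterate_succ_apply,
        show θ (x + y) = θ x + θ y by simp only [θ, map_add]; ring, ih]
  have hθ0 : ∀ n : ℕ, θ^[n] 0 = 0 := by
    intro n
    have := hθadd n 0 0
    rw [add_zero] at this
    simpa using this
  by_cases hall : ∀ c : S, Function.minimalPeriod π c ≤ 3
  · refine ⟨6, by norm_num, by norm_num, ?_⟩
    apply Equiv.ext
    intro c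
    have h1 := hall c
    have h2 : 0 < Function.minimalPeriod π c := by
      apply Function.minimalPeriod_pos_of_mem_periodicPts
      exact Function.Injective.mem_periodicPts π.injective c
    have h3 : Function.minimalPeriod π c ∣ 6 := by
      interval_cases hh : Function.minimalPeriod π c <;> norm_num
    have h4 : Function.IsPeriodicPt π 6 c := (Function.isPeriodicPt_iff_minimalPeriod_dvd).2 h3
    have h5 : π^[6] c = c := h4
    rw [← Equiv.Perm.iterate_eq_pow]
    exact h5
  · push Not at hall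
    obtain ⟨c, hc⟩ := hall
    set m := Function.minimalPeriod π c with hm
    have hm0 : 0 < m := by omega
    have hinj : Set.InjOn (fun n : ℕ => π^[n] c) (Set.Iio m) :=
      Function.iterate_injOn_Iio_minimalPeriod
    have hm7 : m ≤ 7 := by
      have : Function.Injective (fun i : Fin m => π^[(i : ℕ)] c) := by
        intro i j hij
        exact Fin.ext (hinj i.2 j.2 hij)
      have h1 := Nat.card_le_card_of_injective _ this
      rw [Nat.card_fin, hc7] at h1
      exact h1
    refine ⟨m, hm0, hm7, ?_⟩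
    have hper : π^[m] c = c := Function.iterate_minimalPeriod
    let B : AddSubgroup F :=
      { carrier := {x | x ∈ lGroup hS ∧ θ^[m] x = x}
        zero_mem' := ⟨(lGroup hS).zero_mem, hθ0 m⟩
        add_mem' := by
          rintro x y ⟨h1, h2⟩ ⟨h3, h4⟩
          exact ⟨(lGroup hS).add_mem h1 h3, by rw [hθadd, h2, h4]⟩
        neg_mem' := by
          rintro x ⟨h1, h2⟩
          rw [CharTwo.neg_eq]
          exact ⟨h1, h2⟩ }
    have hBA : B ≤ lGroup hS := fun x hx => hx.1
    have hdvd := AddSubgroup.card_dvd_of_le hBA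
    rw [card_lGroup hS] at hdvd
    have hB5 : 5 ≤ Nat.card B := by
      have hmem : ∀ i : ℕ, (π^[i] c).1.l ∈ B := by
        intro i
        refine ⟨Or.inr ⟨_, (π^[i] c).2, rfl⟩, ?_⟩
        rw [hθl, ← Equiv.Perm.iterate_eq_pow, ← Function.iterate_add_apply, add_comm,
          Function.iterate_add_apply, hper]
      let g : Option (Fin 4) → B := fun o => match o with
        | none => 0
        | some i => ⟨(π^[(i : ℕ)] c).1.l, hmem i⟩
      have hg : Function.Injective g := by
        intro a b hab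
        match a, b with
        | none, none => rfl
        | none, some i =>
          exfalso
          exact hS.l_ne _ (π^[(i : ℕ)] c).2 (congrArg Subtype.val hab).symm
        | some i, none =>
          exfalso
          exact hS.l_ne _ (π^[(i : ℕ)] c).2 (congrArg Subtype.val hab)
        | some i, some j =>
          have h1 : (π^[(i : ℕ)] c).1.l = (π^[(j : ℕ)] c).1.l := congrArg Subtype.val hab
          have h2 : π^[(i : ℕ)] c = π^[(j : ℕ)] c := by
            by_contra hne
            exact hS.l_inj _ (π^[(i : ℕ)] c).2 _ (π^[(j : ℕ)] c).2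
              (fun h => hne (Subtype.ext h)) h1
          have h3 : (i : ℕ) = j := hinj (by simp; omega) (by simp; omega) h2
          rw [Fin.ext h3]
      have h1 := Nat.card_le_card_of_injective g hg
      rw [Finite.card_option, Nat.card_fin] at h1
      exact h1
    have hB8 : Nat.card B = 8 := by
      have h1 : Nat.card B ≤ 8 := Nat.le_of_dvd (by norm_num) hdvd
      interval_cases hh : Nat.card B <;> omega
    have hBeq : B = lGroup hS := by
      apply AddSubgroup.eq_of_le_of_card_ge hBA
      rw [card_lGroup hS, hB8]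
    apply Equiv.ext
    intro d
    have hd : d.1.l ∈ B := by
      rw [hBeq]
      exact Or.inr ⟨d.1, d.2, rfl⟩
    have h1 := hd.2
    rw [hθl] at h1
    by_contra hne
    exact hS.l_inj _ ((π ^ m) d).2 _ d.2 (fun h => hne (Subtype.ext h)) h1

theorem card_le [CharP F 2] [Finite F] {h : ℕ} (h0 : h ≠ 0) (hF : ∀ x : F, x ^ 2 ^ h = x)
    {S : Set (Par F)} (hS : IsClosedSeven h S) (hA : ¬ IsAffine S) :
    Nat.card (inducedGroup S) ≤ 7 := by
  have hc := cyclic h0 hF hS hA
  obtain ⟨g, hg⟩ := hc.exists_generator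
  rw [← orderOf_eq_card_of_forall_mem_zpowers hg]
  obtain ⟨n, h1, h2, h3⟩ := exists_pow_le h0 hF hS g.2
  have h4 : g ^ n = 1 := Subtype.ext (by rw [Subgroup.coe_pow, h3]; rfl)
  exact (orderOf_le_of_pow_eq_one h1 h4).trans h2

theorem seven_dvd [CharP F 2] [Finite F] {h : ℕ} (h0 : h ≠ 0) (hF : ∀ x : F, x ^ 2 ^ h = x)
    {S : Set (Par F)} (hS : IsClosedSeven h S) (hA : ¬ IsAffine S)
    (h7 : Nat.card (inducedGroup S) = 7) : 7 ∣ h := by
  have hc := cyclic h0 hF hS hA
  obtain ⟨g, hg⟩ := hc.exists_generator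
  rw [← h7, ← orderOf_eq_card_of_forall_mem_zpowers hg]
  apply orderOf_dvd_of_pow_eq_one
  exact Subtype.ext (by rw [Subgroup.coe_pow, pow_h h0 hF hS hA g.2]; rfl)

end Pool.Agent.NH11.Ma
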