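import Pool.Agent.NH11.Ma.Bez

/-! Semilinear maps that map a conic `F_{α,β,λ}` into another one. -/

namespace Pool.Agent.NH11.Ma

variable {F : Type*} [Field F]

/-- Entry `i` of the image of the `j`-th basis vector. -/
def ent (f : (Fin 3 → F) → (Fin 3 → F)) (i j : Fin 3) : F := f (Pi.single j 1) i

theorem coll_apply {f : (Fin 3 → F) → (Fin 3 → F)} {σ : F ≃+* F}
    (h1 : ∀ v w, f (v + w) = f v + f w) (h2 : ∀ (x : F) (v : Fin 3 → F), f (x • v) = σ x • f v)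
    (v : Fin 3 → F) (i : Fin 3) :
    f v i = σ (v 0) * ent f i 0 + σ (v 1) * ent f i 1 + σ (v 2) * ent f i 2 := by
  have e : v = v 0 • (Pi.single 0 1 : Fin 3 → F) + v 1 • (Pi.single 1 1 : Fin 3 → F) +
      v 2 • (Pi.single 2 1 : Fin 3 → F) := by
    funext j
    fin_cases j <;> simp
  have : f v = σ (v 0) • f (Pi.single 0 1) + σ (v 1) • f (Pi.single 1 1) +
      σ (v 2) • f (Pi.single 2 1) := by
    conv_lhs => rw [e]
    rw [h1, h1, h2, h2, h2]
  rw [this]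
  simp [ent]

/-- The relations satisfied by a semilinear map that maps five points of the conic `c` (with
second coordinate one) into the conic `d`. -/
structure Rel (f : (Fin 3 → F) → (Fin 3 → F)) (σ : F ≃+* F) (c d : Par F) : Prop where
  ra : d.a * ent f 0 0 ^ 2 + ent f 0 0 * ent f 1 0 + d.b * ent f 1 0 ^ 2 + d.l * ent f 2 0 ^ 2 =
    (ent f 0 0 * ent f 1 1 + ent f 0 1 * ent f 1 0) * σ c.a
  rb : d.a * ent f 0 1 ^ 2 + ent f 0 1 * ent f 1 1 + d.b * ent f 1 1 ^ 2 + d.l * ent f 2 1 ^ 2 =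
    (ent f 0 0 * ent f 1 1 + ent f 0 1 * ent f 1 0) * σ c.b
  rl : d.l * ent f 2 2 ^ 2 = (ent f 0 0 * ent f 1 1 + ent f 0 1 * ent f 1 0) * σ c.l

theorem rel_of_five [CharP F 2] {f : (Fin 3 → F) → (Fin 3 → F)} {σ : F ≃+* F}
    (hf : Function.Surjective f)
    (h1 : ∀ v w, f (v + w) = f v + f w) (h2 : ∀ (x : F) (v : Fin 3 → F), f (x • v) = σ x • f v)
    {c d : Par F} (hc : c.l ≠ 0) (hd : d.l ≠ 0) (s : Finset F) (hs : 5 ≤ s.card)
    (h : ∀ t ∈ s, ∃ z : F, c.l * z ^ 2 = c.a * t ^ 2 + t + c.b ∧ f ![t, 1, z] ∈ conic d) :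
    ent f 0 2 = 0 ∧ ent f 1 2 = 0 ∧ ent f 0 0 * ent f 1 1 + ent f 0 1 * ent f 1 0 ≠ 0 ∧
      Rel f σ c d := by
  classical
  have two : (2 : F) = 0 := CharTwo.two_eq_zero
  have hl : σ c.l ≠ 0 := fun h => hc (by simpa using h)
  obtain ⟨hE, hG, hA, hB, hC⟩ := bezout (a := σ c.a) (b := σ c.b) (l := σ c.l)
    (A := d.a * ent f 0 0 ^ 2 + ent f 0 0 * ent f 1 0 + d.b * ent f 1 0 ^ 2 + d.l * ent f 2 0 ^ 2)
    (B := d.a * ent f 0 1 ^ 2 + ent f 0 1 * ent f 1 1 + d.b * ent f 1 1 ^ 2 + d.l * ent f 2 1 ^ 2)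
    (C := d.a * ent f 0 2 ^ 2 + ent f 0 2 * ent f 1 2 + d.b * ent f 1 2 ^ 2 + d.l * ent f 2 2 ^ 2)
    (D := ent f 0 0 * ent f 1 1 + ent f 0 1 * ent f 1 0)
    (E := ent f 0 0 * ent f 1 2 + ent f 0 2 * ent f 1 0)
    (G := ent f 0 1 * ent f 1 2 + ent f 0 2 * ent f 1 1) hl (s.image σ)
    (by rwa [Finset.card_image_of_injective _ σ.injective]) (by
      intro t' ht'
      obtain ⟨t, ht, rfl⟩ := Finset.mem_image.1 ht'
      obtain ⟨z, hz, -, hq⟩ := h t ht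
      refine ⟨σ z, ?_, ?_⟩
      · rw [← map_pow, ← map_mul, hz]; simp
      · rw [coll_apply h1 h2, coll_apply h1 h2, coll_apply h1 h2] at hq
        simp only [Matrix.cons_val_zero, Matrix.cons_val_one, Matrix.cons_val, map_one] at hq
        linear_combination hq - (d.a * (σ t * ent f 0 0 * ent f 0 1 + σ t * ent f 0 0 *
          (σ z * ent f 0 2) + ent f 0 1 * (σ z * ent f 0 2)) +
          d.b * (σ t * ent f 1 0 * ent f 1 1 + σ t * ent f 1 0 * (σ z * ent f 1 2) +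
          ent f 1 1 * (σ z * ent f 1 2)) +
          d.l * (σ t * ent f 2 0 * ent f 2 1 + σ t * ent f 2 0 * (σ z * ent f 2 2) +
          ent f 2 1 * (σ z * ent f 2 2))) * two)
  have hκ : ent f 0 0 * ent f 1 1 + ent f 0 1 * ent f 1 0 ≠ 0 := by
    intro hκ
    rw [hκ, zero_mul] at hA hB hC
    obtain ⟨u, hu⟩ := hf ![0, 0, 1]
    have q : d.a * (f u 0) ^ 2 + f u 0 * f u 1 + d.b * (f u 1) ^ 2 + d.l * (f u 2) ^ 2 = 0 := by
      rw [coll_apply h1 h2, coll_apply h1 h2, coll_apply h1 h2]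
      linear_combination σ (u 0) ^ 2 * hA + σ (u 1) ^ 2 * hB + σ (u 2) ^ 2 * hC +
        σ (u 0) * σ (u 1) * hκ + σ (u 0) * σ (u 2) * hE + σ (u 1) * σ (u 2) * hG +
        (d.a * (σ (u 0) * ent f 0 0 * (σ (u 1) * ent f 0 1) + σ (u 0) * ent f 0 0 *
          (σ (u 2) * ent f 0 2) + σ (u 1) * ent f 0 1 * (σ (u 2) * ent f 0 2)) +
          d.b * (σ (u 0) * ent f 1 0 * (σ (u 1) * ent f 1 1) + σ (u 0) * ent f 1 0 *
          (σ (u 2) * ent f 1 2) + σ (u 1) * ent f 1 1 * (σ (u 2) * ent f 1 2)) +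
          d.l * (σ (u 0) * ent f 2 0 * (σ (u 1) * ent f 2 1) + σ (u 0) * ent f 2 0 *
          (σ (u 2) * ent f 2 2) + σ (u 1) * ent f 2 1 * (σ (u 2) * ent f 2 2))) * two
    rw [hu] at q
    simp at q
    exact hd q
  have h02 : ent f 0 2 = 0 := by
    have : (ent f 0 0 * ent f 1 1 + ent f 0 1 * ent f 1 0) * ent f 0 2 = 0 := by
      linear_combination ent f 0 0 * hG + ent f 0 1 * hE - ent f 0 0 * ent f 0 1 * ent f 1 2 * two
    rcases mul_eq_zero.1 this with h | h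
    · exact absurd h hκ
    · exact h
  have h12 : ent f 1 2 = 0 := by
    have : (ent f 0 0 * ent f 1 1 + ent f 0 1 * ent f 1 0) * ent f 1 2 = 0 := by
      linear_combination ent f 1 1 * hE + ent f 1 0 * hG - ent f 0 2 * ent f 1 0 * ent f 1 1 * two
    rcases mul_eq_zero.1 this with h | h
    · exact absurd h hκ
    · exact h
  refine ⟨h02, h12, hκ, hA, hB, ?_⟩
  rw [h02, h12] at hC
  linear_combination hC

end Pool.Agent.NH11.Ma
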