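import Pool.Agent.NH11.Ma.Col

/-! A linear map that moves the conics forces the parameters to depend affinely on `λ`. -/

namespace Pool.Agent.NH11.Ma

variable {F : Type*} [Field F]

theorem om_seven [CharP F 2] {ω : F} (hω : ω ^ 3 = ω + 1) : ω ^ 7 = 1 := by
  have two : (2 : F) = 0 := CharTwo.two_eq_zero
  linear_combination (ω ^ 4 + ω ^ 2 + ω + 1) * hω + (ω ^ 2 + ω) * two

theorem comp_third [CharP F 2] {h : ℕ} {S : Set (Par F)} (hS : IsClosedSeven h S)
    {π : Equiv.Perm S} {ω : F} (hω : ω ^ 3 = ω + 1) (hl : ∀ c : S, (π c).1.l = ω * c.1.l)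
    (c : S) : ω ^ 3 * (π (π (π c))).1.a = ω * (π c).1.a + c.1.a ∧
      ω ^ 3 * (π (π (π c))).1.b = ω * (π c).1.b + c.1.b := by
  have two : (2 : F) = 0 := CharTwo.two_eq_zero
  have h0 := hS.l_ne c.1 c.2
  have hω1 : ω + 1 ≠ 0 := by
    intro h
    have h1 : ω = 1 := by linear_combination h - two
    rw [h1] at hω
    apply one_ne_zero (α := F)
    linear_combination hω + two
  have hω3 : ω ^ 3 ≠ 0 := by rw [hω]; exact hω1
  have hne : (π c).1 ≠ c.1 := by
    intro h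
    have h2 := hl c
    rw [h] at h2
    apply hω1
    have h3 : (ω + 1) * c.1.l = 0 := by linear_combination -h2 + c.1.l * two
    rcases mul_eq_zero.1 h3 with h | h
    · exact h
    · exact absurd h h0
  have hmem := hS.closed _ (π c).2 _ c.2 hne
  have hl3 : (comp (π c).1 c.1).l = (π (π (π c))).1.l := by
    rw [hl, hl, hl]
    simp only [comp, hl]
    linear_combination -c.1.l * hω
  have heq : comp (π c).1 c.1 = (π (π (π c))).1 := by
    by_contra hne2
    exact hS.l_inj _ hmem _ (π (π (π c))).2 hne2 hl3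
  rw [← heq]
  simp only [comp, hl]
  have hd : ω * c.1.l + c.1.l ≠ 0 := by
    intro h
    have : (ω + 1) * c.1.l = 0 := by linear_combination h
    rcases mul_eq_zero.1 this with h | h
    · exact hω1 h
    · exact h0 h
  constructor
  · field_simp
    rw [hω]; ring
  · field_simp
    rw [hω]; ring

theorem moved_ne [CharP F 2] {h : ℕ} {S : Set (Par F)} (hS : IsClosedSeven h S)
    {π : Equiv.Perm S} {ω : F} (hω : ω ≠ 1) (hl : ∀ c : S, (π c).1.l = ω * c.1.l) (c : S) :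
    (π c).1 ≠ c.1 := by
  intro h
  have h2 := hl c
  rw [h] at h2
  have h3 : (ω - 1) * c.1.l = 0 := by linear_combination -h2
  rcases mul_eq_zero.1 h3 with h | h
  · exact hω (sub_eq_zero.1 h)
  · exact absurd h (hS.l_ne c.1 c.2)

/-- The point common to all conics. -/
theorem common [CharP F 2] {h : ℕ} (h0 : h ≠ 0) (hF : ∀ x : F, x ^ 2 ^ h = x) {S : Set (Par F)}
    (hS : IsClosedSeven h S) {π : Equiv.Perm S} {ω κ m00 m01 m10 m11 m20 m21 : F}
    (hω : ω ^ 3 = ω + 1) (hκ : κ = m00 * m11 + m01 * m10) (hκ0 : κ ≠ 0)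
    (hl : ∀ c : S, (π c).1.l = ω * c.1.l)
    (ha : ∀ c : S, (π c).1.a * m00 ^ 2 + m00 * m10 + (π c).1.b * m10 ^ 2 +
      (π c).1.l * m20 ^ 2 = κ * c.1.a)
    (hb : ∀ c : S, (π c).1.a * m01 ^ 2 + m01 * m11 + (π c).1.b * m11 ^ 2 +
      (π c).1.l * m21 ^ 2 = κ * c.1.b) {p q : F} (hpq : ¬ (p = 0 ∧ q = 0))
    (A1 : p * m00 ^ 2 + q * m10 ^ 2 = κ * ω ^ 4 * p)
    (B1 : p * m01 ^ 2 + q * m11 ^ 2 = κ * ω ^ 4 * q) (c : S) : False := by
  have two : (2 : F) = 0 := CharTwo.two_eq_zero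
  have hω7 := om_seven hω
  have hω0 : ω ≠ 0 := by
    rintro rfl
    simp at hω7
  have hω1 : ω ≠ 1 := by
    rintro rfl
    apply one_ne_zero (α := F)
    linear_combination -hω
  obtain ⟨s, hs⟩ := exists_sqrt h0 hF p
  obtain ⟨t, ht⟩ := exists_sqrt h0 hF q
  obtain ⟨k, hk⟩ := exists_sqrt h0 hF κ
  have hk0 : k ≠ 0 := by
    rintro rfl
    apply hκ0
    rw [← hk]; ring
  have g1 : s * m00 + t * m10 = k * ω ^ 2 * s := by
    apply sq_inj2
    rw [← hs, ← ht, ← hk] at A1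
    linear_combination A1 + s * m00 * t * m10 * two
  have g2 : s * m01 + t * m11 = k * ω ^ 2 * t := by
    apply sq_inj2
    rw [← hs, ← ht, ← hk] at B1
    linear_combination B1 + s * m01 * t * m11 * two
  have hst : s ≠ 0 ∨ t ≠ 0 := by
    by_contra hcon
    push Not at hcon
    obtain ⟨rfl, rfl⟩ := hcon
    apply hpq
    exact ⟨by rw [← hs]; ring, by rw [← ht]; ring⟩
  have br : (m00 + k * ω ^ 2) * (m11 + k * ω ^ 2) + m01 * m10 = 0 := by
    have b1 : s * ((m00 + k * ω ^ 2) * (m11 + k * ω ^ 2) + m01 * m10) = 0 := by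
      linear_combination (m11 + k * ω ^ 2) * g1 + m10 * g2 +
        (s * k * ω ^ 2 * (m11 + k * ω ^ 2) - t * m10 * m11) * two
    have b2 : t * ((m00 + k * ω ^ 2) * (m11 + k * ω ^ 2) + m01 * m10) = 0 := by
      linear_combination (m00 + k * ω ^ 2) * g2 + m01 * g1 +
        (t * k * ω ^ 2 * (m00 + k * ω ^ 2) - s * m00 * m01) * two
    rcases hst with h | h
    · exact (mul_eq_zero.1 b1).resolve_left h
    · exact (mul_eq_zero.1 b2).resolve_left h
  obtain ⟨μ, hμ⟩ : ∃ μ, μ = m00 + m11 + k * ω ^ 2 := ⟨_, rfl⟩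
  have hkμ : k = ω ^ 2 * μ := by
    have : k * (k - ω ^ 2 * μ) = 0 := by
      rw [hμ]
      linear_combination -br + hk + hκ + (k * ω ^ 2 * (m00 + m11 + k * ω ^ 2)) * 0 * two
        + (m00 * m11 + m01 * m10) * two * 1 - (k ^ 2) * 0 * two
    have := (mul_eq_zero.1 this).resolve_left hk0
    exact sub_eq_zero.1 this
  have hμ0 : μ ≠ 0 := by
    rintro rfl
    apply hk0
    rw [hkμ]; ring
  have w1 : m00 * t + m01 * s = μ * t := by
    rw [hμ]
    linear_combination g2 - t * m11 * two - k * ω ^ 2 * t * 0 * two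
  have w2 : m10 * t + m11 * s = μ * s := by
    rw [hμ]
    linear_combination g1 - s * m00 * two
  obtain ⟨N, hN⟩ : ∃ N, N = ((m20 * t + m21 * s) / μ) ^ 2 := ⟨_, rfl⟩
  have hN' : μ ^ 2 * N = (m20 * t + m21 * s) ^ 2 := by
    rw [hN]
    field_simp
  have hκμ : κ = ω ^ 4 * μ ^ 2 := by rw [← hk, hkμ]; ring
  -- the value of the forms at `(t, s)`
  have key : ∀ c : S, (π c).1.a * t ^ 2 + t * s + (π c).1.b * s ^ 2 =
      ω ^ 4 * (c.1.a * t ^ 2 + t * s + c.1.b * s ^ 2) + ω * c.1.l * N := by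
    intro c
    have e1 := ha c
    have e2 := hb c
    rw [hl] at e1 e2
    have hm : μ ^ 2 ≠ 0 := pow_ne_zero _ hμ0
    apply mul_left_cancel₀ hm
    have e3 : (π c).1.a * (m00 * t + m01 * s) ^ 2 + (m00 * t + m01 * s) * (m10 * t + m11 * s) +
        (π c).1.b * (m10 * t + m11 * s) ^ 2 + ω * c.1.l * (m20 * t + m21 * s) ^ 2 =
        κ * (c.1.a * t ^ 2 + t * s + c.1.b * s ^ 2) := by
      linear_combination t ^ 2 * e1 + s ^ 2 * e2 - t * s * hκ +
        ((π c).1.a * m00 * m01 + (π c).1.b * m10 * m11 + ω * c.1.l * m20 * m21) * t * s * two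
    rw [w1, w2, ← hN', hκμ] at e3
    linear_combination e3 - ω * c.1.l * μ ^ 2 * N * two
  have hω5 : ω ^ 5 = ω ^ 2 + ω + 1 := by
    linear_combination (ω ^ 2 + 1) * hω
  have val : ∀ c : S, ω * (c.1.a * t ^ 2 + t * s + c.1.b * s ^ 2) = c.1.l * N := by
    intro c
    obtain ⟨r1, r2⟩ := comp_third hS hω hl c
    have k1 := key c
    have k2 := key (π c)
    have k3 := key (π (π c))
    rw [hl] at k2 k3
    rw [hl] at k3
    obtain ⟨R0, hR0⟩ : ∃ R0, R0 = c.1.a * t ^ 2 + t * s + c.1.b * s ^ 2 := ⟨_, rfl⟩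
    obtain ⟨R1, hR1⟩ : ∃ R1, R1 = (π c).1.a * t ^ 2 + t * s + (π c).1.b * s ^ 2 := ⟨_, rfl⟩
    obtain ⟨R2, hR2⟩ : ∃ R2, R2 = (π (π c)).1.a * t ^ 2 + t * s + (π (π c)).1.b * s ^ 2 :=
      ⟨_, rfl⟩
    obtain ⟨R3, hR3⟩ : ∃ R3, R3 = (π (π (π c))).1.a * t ^ 2 + t * s +
      (π (π (π c))).1.b * s ^ 2 := ⟨_, rfl⟩
    rw [← hR1, ← hR0] at k1
    rw [← hR2, ← hR1] at k2
    rw [← hR3, ← hR2] at k3
    have k4 : ω ^ 3 * R3 = ω * R1 + R0 := by
      rw [hR3, hR1, hR0]
      linear_combination t ^ 2 * r1 + s ^ 2 * r2 + t * s * hω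
    rw [← hR0]
    rw [k3, k2, k1] at k4
    apply mul_left_cancel₀ hω0
    have w15 : ω ^ 15 = ω := by linear_combination (ω ^ 8 + ω) * hω7
    have w12 : ω ^ 12 = ω ^ 5 := by linear_combination ω ^ 5 * hω7
    have w9 : ω ^ 9 = ω ^ 2 := by linear_combination ω ^ 2 * hω7
    have w6 : ω ^ 6 = ω ^ 2 + 1 := by linear_combination (ω ^ 3 + ω + 1) * hω + ω * two
    linear_combination k4 - R0 * w15 + R0 * hω5 + (ω ^ 2 + 1) * R0 * two -
      c.1.l * N * (w12 + w9 + w6) - c.1.l * N * hω5 - (ω ^ 2 + ω + 1) * c.1.l * N * two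
  obtain ⟨z, hz⟩ := exists_sqrt h0 hF (N / ω)
  have hv : ∀ c : S, (![t, s, z] : Fin 3 → F) ∈ conic c.1 := by
    intro c
    refine ⟨?_, ?_⟩
    · intro h
      have e0 := congrFun h 0
      have e1 := congrFun h 1
      simp only [Matrix.cons_val_zero, Matrix.cons_val_one, Pi.zero_apply] at e0 e1
      rcases hst with h | h
      · exact h e1
      · exact h e0
    · simp only [Matrix.cons_val_zero, Matrix.cons_val_one, Matrix.cons_val]
      rw [hz]
      apply mul_left_cancel₀ hω0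
      have := val c
      field_simp
      linear_combination this + c.1.l * N * two
  exact disjoint_conics hF hS (π c).2 c.2 (moved_ne hS hω1 hl c) (hv _) (hv c)

theorem core [CharP F 2] {h : ℕ} (h0 : h ≠ 0) (hF : ∀ x : F, x ^ 2 ^ h = x) {S : Set (Par F)}
    (hS : IsClosedSeven h S) {π : Equiv.Perm S} {ω κ m00 m01 m10 m11 m20 m21 : F}
    (hω : ω ^ 3 = ω + 1) (hκ : κ = m00 * m11 + m01 * m10) (hκ0 : κ ≠ 0)
    (hl : ∀ c : S, (π c).1.l = ω * c.1.l)
    (ha : ∀ c : S, (π c).1.a * m00 ^ 2 + m00 * m10 + (π c).1.b * m10 ^ 2 +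
      (π c).1.l * m20 ^ 2 = κ * c.1.a)
    (hb : ∀ c : S, (π c).1.a * m01 ^ 2 + m01 * m11 + (π c).1.b * m11 ^ 2 +
      (π c).1.l * m21 ^ 2 = κ * c.1.b) (c : S) :
    (π (π (π c))).1.a + ω ^ 3 * (π (π c)).1.a + ω * (π c).1.a = 0 ∧
      (π (π (π c))).1.b + ω ^ 3 * (π (π c)).1.b + ω * (π c).1.b = 0 := by
  have two : (2 : F) = 0 := CharTwo.two_eq_zero
  have hω7 := om_seven hω
  obtain ⟨p, hp⟩ : ∃ p, p = (π (π (π c))).1.a + ω ^ 3 * (π (π c)).1.a + ω * (π c).1.a :=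
    ⟨_, rfl⟩
  obtain ⟨q, hq⟩ : ∃ q, q = (π (π (π c))).1.b + ω ^ 3 * (π (π c)).1.b + ω * (π c).1.b :=
    ⟨_, rfl⟩
  rw [← hp, ← hq]
  by_contra hpq
  obtain ⟨r1, r2⟩ := comp_third hS hω hl c
  have hω5 : ω ^ 5 = ω ^ 3 + ω ^ 2 := by linear_combination ω ^ 2 * hω
  have A1 : p * m00 ^ 2 + q * m10 ^ 2 = κ * ω ^ 4 * p := by
    have e1 := ha c
    have e2 := ha (π c)
    have e3 := ha (π (π c))
    rw [hl] at e1 e2 e3
    rw [hl] at e2 e3
    rw [hl] at e3
    have s1 : p * m00 ^ 2 + q * m10 ^ 2 =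
        κ * ((π (π c)).1.a + ω ^ 3 * (π c).1.a + ω * c.1.a) := by
      rw [hp, hq]
      linear_combination e3 + ω ^ 3 * e2 + ω * e1 - m00 * m10 * hω - (ω + 1) * (m00 * m10) * two
        - (c.1.l * m20 ^ 2 * ω ^ 2) * hω * 1 - (c.1.l * m20 ^ 2 * ω ^ 2) * (ω + 1) * two
    rw [s1]
    have s2 : c.1.a = ω ^ 3 * (π (π (π c))).1.a + ω * (π c).1.a := by
      linear_combination -r1 - ω * (π c).1.a * two
    linear_combination κ * ω * s2 - κ * (π (π c)).1.a * hω7 - κ * (π c).1.a * hω5 -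
      κ * ω ^ 4 * hp
  have B1 : p * m01 ^ 2 + q * m11 ^ 2 = κ * ω ^ 4 * q := by
    have e1 := hb c
    have e2 := hb (π c)
    have e3 := hb (π (π c))
    rw [hl] at e1 e2 e3
    rw [hl] at e2 e3
    rw [hl] at e3
    have s1 : p * m01 ^ 2 + q * m11 ^ 2 =
        κ * ((π (π c)).1.b + ω ^ 3 * (π c).1.b + ω * c.1.b) := by
      rw [hp, hq]
      linear_combination e3 + ω ^ 3 * e2 + ω * e1 - m01 * m11 * hω - (ω + 1) * (m01 * m11) * two
        - (c.1.l * m21 ^ 2 * ω ^ 2) * hω * 1 - (c.1.l * m21 ^ 2 * ω ^ 2) * (ω + 1) * two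
    rw [s1]
    have s2 : c.1.b = ω ^ 3 * (π (π (π c))).1.b + ω * (π c).1.b := by
      linear_combination -r2 - ω * (π c).1.b * two
    linear_combination κ * ω * s2 - κ * (π (π c)).1.b * hω7 - κ * (π c).1.b * hω5 -
      κ * ω ^ 4 * hq
  exact common h0 hF hS hω hκ hκ0 hl ha hb hpq A1 B1 c

/-- The parameters of the conics depend affinely on `λ`. -/
def IsAffine (S : Set (Par F)) : Prop :=
  ∃ a0 b0 p q : F, ∀ c ∈ S, c.a = a0 + c.l * p ∧ c.b = b0 + c.l * q

theorem affine_of_relations [CharP F 2] {h : ℕ} {S : Set (Par F)} (hS : IsClosedSeven h S)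
    {π : Equiv.Perm S} {ω : F} (hω : ω ^ 3 = ω + 1) (hl : ∀ c : S, (π c).1.l = ω * c.1.l)
    (hu : ∀ c : S, (π (π (π c))).1.a + ω ^ 3 * (π (π c)).1.a + ω * (π c).1.a = 0 ∧
      (π (π (π c))).1.b + ω ^ 3 * (π (π c)).1.b + ω * (π c).1.b = 0) : IsAffine S := by
  have two : (2 : F) = 0 := CharTwo.two_eq_zero
  have hω7 := om_seven hω
  have hω0 : ω ≠ 0 := by
    rintro rfl
    simp at hω7
  have hω1 : ω ≠ 1 := by
    rintro rfl
    apply one_ne_zero (α := F)
    linear_combination -hω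
  have hω1' : ω + 1 ≠ 0 := fun h => hω1 (add_eq_zero2 h)
  have hω3 : ω ^ 3 ≠ 0 := pow_ne_zero _ hω0
  have : Fact (Nat.Prime 7) := ⟨by norm_num⟩
  have hord : orderOf ω = 7 := orderOf_eq_prime hω7 hω1
  have hne : S.Nonempty := by
    apply Set.nonempty_of_ncard_ne_zero
    rw [hS.card]; norm_num
  obtain ⟨c1, hc1⟩ := hne
  set c0 : S := ⟨c1, hc1⟩
  have hl0 := hS.l_ne c0.1 c0.2
  have hpow : ∀ n : ℕ, ((π ^ n) c0).1.l = ω ^ n * c0.1.l := by
    intro n
    induction n with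
    | zero => simp
    | succ n ih => rw [pow_succ', Equiv.Perm.mul_apply, hl, ih]; ring
  have hinj : Function.Injective (fun i : Fin 7 => (π ^ (i : ℕ)) c0) := by
    intro i j hij
    have h1 : ω ^ (i : ℕ) * c0.1.l = ω ^ (j : ℕ) * c0.1.l := by
      rw [← hpow, ← hpow]
      exact congrArg (fun c : S => c.1.l) hij
    have h2 := mul_right_cancel₀ hl0 h1
    have h3 := pow_injOn_Iio_orderOf (x := ω) (by rw [hord]; exact i.2) (by rw [hord]; exact j.2) h2
    exact Fin.ext h3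
  have hfin : Finite S := Set.finite_of_ncard_ne_zero (by rw [hS.card]; norm_num)
  have hsurj : Function.Surjective (fun i : Fin 7 => (π ^ (i : ℕ)) c0) := by
    have := hinj.bijective_of_nat_card_le (by
      rw [Nat.card_fin]
      exact hS.card.le)
    exact this.2
  -- relation for three steps, in the form used below
  have hu2 : ∀ c : S, (π (π c)).1.a = ω ^ 3 * (π c).1.a + ω * c.1.a ∧
      (π (π c)).1.b = ω ^ 3 * (π c).1.b + ω * c.1.b := by
    intro c
    obtain ⟨h1, h2⟩ := hu (π.symm c)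
    rw [Equiv.apply_symm_apply] at h1 h2
    constructor
    · linear_combination h1 - (ω ^ 3 * (π c).1.a + ω * c.1.a) * two
    · linear_combination h2 - (ω ^ 3 * (π c).1.b + ω * c.1.b) * two
  obtain ⟨p, hp⟩ : ∃ p, p = ((π c0).1.a + c0.1.a) / ((ω + 1) * c0.1.l) := ⟨_, rfl⟩
  obtain ⟨q, hq⟩ : ∃ q, q = ((π c0).1.b + c0.1.b) / ((ω + 1) * c0.1.l) := ⟨_, rfl⟩
  have hp' : (ω + 1) * c0.1.l * p = (π c0).1.a + c0.1.a := by
    rw [hp]; field_simp
  have hq' : (ω + 1) * c0.1.l * q = (π c0).1.b + c0.1.b := by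
    rw [hq]; field_simp
  have main : ∀ n : ℕ, ((π ^ n) c0).1.a = (c0.1.a + c0.1.l * p) + ((π ^ n) c0).1.l * p ∧
      ((π ^ n) c0).1.b = (c0.1.b + c0.1.l * q) + ((π ^ n) c0).1.l * q := by
    intro n
    induction n using Nat.strong_induction_on with
    | _ n ih =>
      match n with
      | 0 =>
        simp only [pow_zero, Equiv.Perm.one_apply]
        constructor
        · linear_combination -c0.1.l * p * two
        · linear_combination -c0.1.l * q * two
      | 1 =>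
        simp only [pow_one, hl]
        constructor
        · linear_combination -hp' - c0.1.a * two
        · linear_combination -hq' - c0.1.b * two
      | (m + 2) =>
        obtain ⟨i1, i2⟩ := ih m (by omega)
        obtain ⟨j1, j2⟩ := ih (m + 1) (by omega)
        obtain ⟨u1, u2⟩ := hu2 ((π ^ m) c0)
        have e1 : (π ^ (m + 1)) c0 = π ((π ^ m) c0) := by
          rw [pow_succ', Equiv.Perm.mul_apply]
        have e2 : (π ^ (m + 2)) c0 = π (π ((π ^ m) c0)) := by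
          rw [pow_succ', Equiv.Perm.mul_apply, e1]
        rw [e1] at j1 j2
        rw [e2]
        rw [hl] at j1 j2
        rw [hl, hl]
        constructor
        · rw [u1, j1, i1]
          linear_combination (c0.1.a + c0.1.l * p + ω * ((π ^ m) c0).1.l * p) * hω +
            (ω * (c0.1.a + c0.1.l * p) + ω * ((π ^ m) c0).1.l * p) * two
        · rw [u2, j2, i2]
          linear_combination (c0.1.b + c0.1.l * q + ω * ((π ^ m) c0).1.l * q) * hω +
            (ω * (c0.1.b + c0.1.l * q) + ω * ((π ^ m) c0).1.l * q) * two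
  refine ⟨c0.1.a + c0.1.l * p, c0.1.b + c0.1.l * q, p, q, fun c hc => ?_⟩
  obtain ⟨i, hi⟩ := hsurj ⟨c, hc⟩
  have := main i
  simp only at hi
  rw [hi] at this
  exact this

end Pool.Agent.NH11.Ma
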