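import Mathlib

/-! Mathon 8-arcs in `PG(2,2^h)` and the groups induced on their seven conics: definitions. -/

namespace Pool.Agent.NH11.Ma

/-- A conic `F_{α,β,λ}`, given by its three parameters. -/
@[ext] structure Par (F : Type*) where
  a : F
  b : F
  l : F

variable {F : Type*} [Field F]

/-- The points of the conic `α x ^ 2 + x y + β y ^ 2 + λ z ^ 2 = 0` (nonzero vectors `(x, y, z)`,
each representing the point of `PG(2,q)` that it spans). -/
def conic (c : Par F) : Set (Fin 3 → F) :=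
  {v | v ≠ 0 ∧ c.a * v 0 ^ 2 + v 0 * v 1 + c.b * v 1 ^ 2 + c.l * v 2 ^ 2 = 0}

/-- The nucleus `F_0 = (0, 0, 1)`. -/
def nucleus : Set (Fin 3 → F) := {v | v ≠ 0 ∧ v 0 = 0 ∧ v 1 = 0}

/-- The composition `F ⊕ F'`. -/
def comp (c d : Par F) : Par F :=
  ⟨(c.a * c.l + d.a * d.l) / (c.l + d.l), (c.b * c.l + d.b * d.l) / (c.l + d.l), c.l + d.l⟩

/-- The absolute trace `GF(2^h) → GF(2)`. -/
def tr (h : ℕ) (x : F) : F := ∑ i ∈ Finset.range h, x ^ 2 ^ i

/-- A closed set of seven conics `F_{α,β,λ}` with `λ ≠ 0` and `Tr (α β) = 1`. -/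
structure IsClosedSeven (h : ℕ) (S : Set (Par F)) : Prop where
  l_ne : ∀ c ∈ S, c.l ≠ 0
  trace : ∀ c ∈ S, tr h (c.a * c.b) = 1
  l_inj : ∀ c ∈ S, ∀ d ∈ S, c ≠ d → c.l ≠ d.l
  closed : ∀ c ∈ S, ∀ d ∈ S, c ≠ d → comp c d ∈ S
  card : S.ncard = 7

/-- The maximal arc of degree eight formed by the conics of `S` and their common nucleus. -/
def arc (S : Set (Par F)) : Set (Fin 3 → F) := nucleus ∪ ⋃ c ∈ S, conic c

/-- Bijective semilinear maps of `F ^ 3`; they induce the collineations in `PΓL(3,q)`. -/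
def IsColl (f : (Fin 3 → F) → (Fin 3 → F)) : Prop :=
  Function.Bijective f ∧ (∀ v w, f (v + w) = f v + f w) ∧
    ∃ σ : F ≃+* F, ∀ (x : F) (v : Fin 3 → F), f (x • v) = σ x • f v

/-- `S` is of Denniston type: its arc is equivalent to one formed by conics `F_{α,1,λ}` with a
fixed `α`. -/
def IsDenniston (h : ℕ) (S : Set (Par F)) : Prop :=
  ∃ (α : F) (T : Set (Par F)), IsClosedSeven h T ∧ (∀ c ∈ T, c.a = α ∧ c.b = 1) ∧
    ∃ f : (Fin 3 → F) → (Fin 3 → F), IsColl f ∧ f '' arc S = arc T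

theorem isColl_id : IsColl (id : (Fin 3 → F) → (Fin 3 → F)) :=
  ⟨Function.bijective_id, fun _ _ => rfl, RingEquiv.refl F, fun _ _ => rfl⟩

theorem IsColl.comp {f g : (Fin 3 → F) → (Fin 3 → F)} (hf : IsColl f) (hg : IsColl g) :
    IsColl (f ∘ g) := by
  obtain ⟨h1, h2, σ, h3⟩ := hf
  obtain ⟨k1, k2, τ, k3⟩ := hg
  refine ⟨h1.comp k1, fun v w => ?_, τ.trans σ, fun x v => ?_⟩
  · simp only [Function.comp, k2, h2]
  · simp only [Function.comp, k3, h3, RingEquiv.trans_apply]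

theorem IsColl.inv {f : (Fin 3 → F) → (Fin 3 → F)} (hf : IsColl f) :
    ∃ g : (Fin 3 → F) → (Fin 3 → F), IsColl g ∧ Function.LeftInverse g f ∧
      Function.RightInverse g f := by
  obtain ⟨h1, h2, σ, h3⟩ := hf
  obtain ⟨g, hg1, hg2⟩ := Function.bijective_iff_has_inverse.1 h1
  refine ⟨g, ⟨Function.bijective_iff_has_inverse.2 ⟨f, hg2, hg1⟩, fun v w => ?_, σ.symm,
    fun x v => ?_⟩, hg1, hg2⟩
  · apply h1.1
    rw [hg2, h2, hg2, hg2]
  · apply h1.1
    rw [hg2, h3, hg2, RingEquiv.apply_symm_apply]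

/-- The group induced on the seven conics by the collineations that stabilise the arc: the
permutations `π` of `S` such that some collineation stabilises the arc and maps the conic `c` onto
the conic `π c`, for every `c` in `S`. -/
def inducedGroup (S : Set (Par F)) : Subgroup (Equiv.Perm S) where
  carrier := {π | ∃ f : (Fin 3 → F) → (Fin 3 → F), IsColl f ∧ f '' arc S = arc S ∧
    ∀ c : S, f '' conic c.1 = conic (π c).1}
  mul_mem' := by
    rintro π ρ ⟨f, hf, hf1, hf2⟩ ⟨g, hg, hg1, hg2⟩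
    refine ⟨f ∘ g, hf.comp hg, ?_, fun c => ?_⟩
    · rw [Set.image_comp, hg1, hf1]
    · rw [Set.image_comp, hg2, hf2]; rfl
  one_mem' := ⟨id, isColl_id, by simp, fun c => by simp⟩
  inv_mem' := by
    rintro π ⟨f, hf, hf1, hf2⟩
    obtain ⟨g, hg, hgl, hgr⟩ := hf.inv
    have key : ∀ s : Set (Fin 3 → F), g '' (f '' s) = s := fun s => by
      rw [← Set.image_comp, show g ∘ f = id from funext hgl, Set.image_id]
    refine ⟨g, hg, ?_, fun c => ?_⟩
    · conv_lhs => rw [← hf1]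
      exact key _
    · have := hf2 (π⁻¹ c)
      rw [show π (π⁻¹ c) = c from π.apply_symm_apply c] at this
      rw [← this, key]

end Pool.Agent.NH11.Ma
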