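import Pool.Agent.NH11.Ma.Card

/-! Affine sets of conics are exactly those of Denniston type. -/

namespace Pool.Agent.NH11.Ma

variable {F : Type*} [Field F]

theorem image_eq_of_iff {α β : Type*} {f : α → β} (hf : Function.Surjective f) {A : Set α}
    {B : Set β} (h : ∀ v, v ∈ A ↔ f v ∈ B) : f '' A = B := by
  ext w
  constructor
  · rintro ⟨v, hv, rfl⟩
    exact (h v).1 hv
  · intro hw
    obtain ⟨v, rfl⟩ := hf w
    exact ⟨v, (h v).2 hw, rfl⟩

theorem exists_two {h : ℕ} {S : Set (Par F)} (hS : IsClosedSeven h S) :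
    ∃ c ∈ S, ∃ d ∈ S, c ≠ d := by
  have h1 : 1 < S.ncard := by rw [hS.card]; norm_num
  obtain ⟨c, d, hc, hd, hcd⟩ := (Set.one_lt_ncard_iff (Set.finite_of_ncard_ne_zero
    (by rw [hS.card]; norm_num))).1 h1
  exact ⟨c, hc, d, hd, hcd⟩

theorem denniston_of_affine [CharP F 2] {h : ℕ} (h0 : h ≠ 0) (hF : ∀ x : F, x ^ 2 ^ h = x)
    {S : Set (Par F)} (hS : IsClosedSeven h S) (hA : IsAffine S) : IsDenniston h S := by
  have two : (2 : F) = 0 := CharTwo.two_eq_zero
  obtain ⟨a0, b0, p, q, hA⟩ := hA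
  have htr : tr h (a0 * b0) = 1 := by
    obtain ⟨c, hc, d, hd, hcd⟩ := exists_two hS
    have he := hS.closed c hc d hd hcd
    have t1 := hS.trace c hc
    have t2 := hS.trace d hd
    have t3 := hS.trace _ he
    obtain ⟨a1, b1⟩ := hA c hc
    obtain ⟨a2, b2⟩ := hA d hd
    obtain ⟨a3, b3⟩ := hA _ he
    have e : a0 * b0 = c.a * c.b + d.a * d.b + (comp c d).a * (comp c d).b := by
      rw [a1, b1, a2, b2, a3, b3, show (comp c d).l = c.l + d.l from rfl]
      linear_combination -(a0 * b0 + (c.l + d.l) * (a0 * q + b0 * p) +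
        (c.l ^ 2 + d.l ^ 2 + c.l * d.l) * (p * q)) * two
    rw [e, tr_add, tr_add, t1, t2, t3]
    linear_combination two
  have hb0 : b0 ≠ 0 := by
    rintro rfl
    rw [mul_zero, tr_zero] at htr
    exact zero_ne_one htr
  obtain ⟨s, hs⟩ := exists_sqrt h0 hF p
  obtain ⟨t, ht⟩ := exists_sqrt h0 hF q
  obtain ⟨g, hg⟩ := exists_sqrt h0 hF b0
  have hg0 : g ≠ 0 := by
    rintro rfl
    apply hb0
    rw [← hg]; ring
  let f : (Fin 3 → F) → (Fin 3 → F) := fun v => ![v 0 / g, g * v 1, s * v 0 + t * v 1 + v 2]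
  have f0 : ∀ v, f v 0 = v 0 / g := fun v => rfl
  have f1 : ∀ v, f v 1 = g * v 1 := fun v => rfl
  have f2 : ∀ v, f v 2 = s * v 0 + t * v 1 + v 2 := fun v => rfl
  have hinj : Function.Injective f := by
    intro v w hvw
    have e0 := congrFun hvw 0
    have e1 := congrFun hvw 1
    have e2 := congrFun hvw 2
    rw [f0, f0] at e0
    rw [f1, f1] at e1
    rw [f2, f2] at e2
    have k0 : v 0 = w 0 := by
      field_simp at e0
      exact e0
    have k1 : v 1 = w 1 := mul_left_cancel₀ hg0 e1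
    have k2 : v 2 = w 2 := by
      rw [k0, k1] at e2
      exact add_left_cancel e2
    funext i
    fin_cases i
    · exact k0
    · exact k1
    · exact k2
  have hsurj : Function.Surjective f := by
    intro w
    refine ⟨![g * w 0, w 1 / g, w 2 - s * (g * w 0) - t * (w 1 / g)], ?_⟩
    funext i
    fin_cases i
    · show g * w 0 / g = w 0
      field_simp
    · show g * (w 1 / g) = w 1
      field_simp
    · show s * (g * w 0) + t * (w 1 / g) + (w 2 - s * (g * w 0) - t * (w 1 / g)) = w 2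
      ring
  have hcoll : IsColl f := by
    refine ⟨⟨hinj, hsurj⟩, fun v w => ?_, RingEquiv.refl F, fun x v => ?_⟩
    · funext i
      fin_cases i
      · show (v 0 + w 0) / g = v 0 / g + w 0 / g
        ring
      · show g * (v 1 + w 1) = g * v 1 + g * w 1
        ring
      · show s * (v 0 + w 0) + t * (v 1 + w 1) + (v 2 + w 2) =
          (s * v 0 + t * v 1 + v 2) + (s * w 0 + t * w 1 + w 2)
        ring
    · funext i
      fin_cases i
      · show (x * v 0) / g = x * (v 0 / g)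
        ring
      · show g * (x * v 1) = x * (g * v 1)
        ring
      · show s * (x * v 0) + t * (x * v 1) + x * v 2 = x * (s * v 0 + t * v 1 + v 2)
        ring
  have hne : ∀ v, v ≠ 0 ↔ f v ≠ 0 := by
    intro v
    have f00 : f 0 = 0 := by
      funext i
      fin_cases i
      · show (0 : F) / g = 0
        simp
      · show g * (0 : F) = 0
        simp
      · show s * (0 : F) + t * 0 + 0 = 0
        simp
    exact not_congr ⟨fun h => by rw [h, f00], fun h => hinj (h.trans f00.symm)⟩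
  have hcon : ∀ c ∈ S, ∀ v, v ∈ conic c ↔ f v ∈ conic (⟨a0 * b0, 1, c.l⟩ : Par F) := by
    intro c hc v
    obtain ⟨a1, b1⟩ := hA c hc
    have hq : c.a * v 0 ^ 2 + v 0 * v 1 + c.b * v 1 ^ 2 + c.l * v 2 ^ 2 =
        a0 * b0 * (v 0 / g) ^ 2 + v 0 / g * (g * v 1) + 1 * (g * v 1) ^ 2 +
          c.l * (s * v 0 + t * v 1 + v 2) ^ 2 := by
      rw [a1, b1, ← hs, ← ht, ← hg]
      field_simp
      linear_combination -(c.l * (s * v 0 * (t * v 1) + s * v 0 * v 2 + t * v 1 * v 2)) * two
    unfold conic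
    simp only [Set.mem_setOf_eq, f0, f1, f2]
    rw [hne v, hq]
  have hnuc : ∀ v, v ∈ (nucleus : Set (Fin 3 → F)) ↔ f v ∈ (nucleus : Set (Fin 3 → F)) := by
    intro v
    unfold nucleus
    simp only [Set.mem_setOf_eq, f0, f1]
    rw [hne v]
    constructor
    · rintro ⟨h1, h2, h3⟩
      exact ⟨h1, by rw [h2, zero_div], by rw [h3, mul_zero]⟩
    · rintro ⟨h1, h2, h3⟩
      refine ⟨h1, ?_, ?_⟩
      · rcases div_eq_zero_iff.1 h2 with h | h
        · exact h
        · exact absurd h hg0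
      · rcases mul_eq_zero.1 h3 with h | h
        · exact absurd h hg0
        · exact h
  let ι : Par F → Par F := fun c => ⟨a0 * b0, 1, c.l⟩
  refine ⟨a0 * b0, ι '' S, ⟨?_, ?_, ?_, ?_, ?_⟩, ?_, f, hcoll, ?_⟩
  · rintro _ ⟨c, hc, rfl⟩
    exact hS.l_ne c hc
  · rintro _ ⟨c, hc, rfl⟩
    show tr h (a0 * b0 * 1) = 1
    rw [mul_one, htr]
  · rintro _ ⟨c, hc, rfl⟩ _ ⟨d, hd, rfl⟩ hne2 hl
    apply hne2
    show (⟨a0 * b0, 1, c.l⟩ : Par F) = ⟨a0 * b0, 1, d.l⟩
    have hl' : c.l = d.l := hl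
    rw [hl']
  · rintro _ ⟨c, hc, rfl⟩ _ ⟨d, hd, rfl⟩ hne2
    have hcd : c ≠ d := fun h => hne2 (by rw [h])
    refine ⟨comp c d, hS.closed c hc d hd hcd, ?_⟩
    have hsum : c.l + d.l ≠ 0 := fun h => hS.l_inj c hc d hd hcd (add_eq_zero2 h)
    show (⟨a0 * b0, 1, c.l + d.l⟩ : Par F) = ⟨(a0 * b0 * c.l + a0 * b0 * d.l) / (c.l + d.l),
      (1 * c.l + 1 * d.l) / (c.l + d.l), c.l + d.l⟩
    rw [← mul_add, ← mul_add, mul_div_cancel_right₀ _ hsum, mul_div_cancel_right₀ _ hsum]
  · rw [Set.ncard_image_of_injOn, hS.card]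
    intro c hc d hd hcd
    by_contra hne2
    have h5 := congrArg (fun x : Par F => x.l) (show ι c = ι d from hcd)
    exact hS.l_inj c hc d hd hne2 h5
  · rintro _ ⟨c, hc, rfl⟩
    exact ⟨rfl, rfl⟩
  · apply image_eq_of_iff hsurj
    intro v
    unfold arc
    simp only [Set.mem_union, Set.mem_iUnion, Set.mem_image, exists_prop]
    constructor
    · rintro (h1 | ⟨c, hc, h1⟩)
      · exact Or.inl ((hnuc v).1 h1)
      · exact Or.inr ⟨_, ⟨c, hc, rfl⟩, (hcon c hc v).1 h1⟩
    · rintro (h1 | ⟨_, ⟨c, hc, rfl⟩, h1⟩)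
      · exact Or.inl ((hnuc v).2 h1)
      · exact Or.inr ⟨c, hc, (hcon c hc v).2 h1⟩

theorem affine_of_denniston [CharP F 2] [Finite F] {h : ℕ} (h0 : h ≠ 0)
    (hF : ∀ x : F, x ^ 2 ^ h = x) (hcard : 36 ≤ Nat.card F)
    {S : Set (Par F)} (hS : IsClosedSeven h S) (hD : IsDenniston h S) : IsAffine S := by
  classical
  have := Fintype.ofFinite F
  obtain ⟨α, T, hT, hTα, f, ⟨hbij, hadd, σ, hsmul⟩, harc⟩ := hD
  have hTfin : T.Finite := Set.finite_of_ncard_ne_zero (by rw [hT.card]; norm_num)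
  have two : (2 : F) = 0 := CharTwo.two_eq_zero
  have hf0 : f 0 = 0 := by
    have := hadd 0 0
    rw [add_zero] at this
    simpa using this
  -- for every conic of `S` there is a conic of `T` with the relations
  have key : ∀ c ∈ S, ∃ d ∈ T, ent f 0 2 = 0 ∧ ent f 1 2 = 0 ∧
      ent f 0 0 * ent f 1 1 + ent f 0 1 * ent f 1 0 ≠ 0 ∧ Rel f σ c d := by
    intro c hc
    have hl := hS.l_ne c hc
    have hz : ∀ t : F, ∃ z : F, c.l * z ^ 2 = c.a * t ^ 2 + t + c.b := by
      intro t
      obtain ⟨z, hz⟩ := exists_sqrt h0 hF ((c.a * t ^ 2 + t + c.b) / c.l)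
      exact ⟨z, by rw [hz]; field_simp⟩
    choose z hz using hz
    have hv : ∀ t : F, (![t, 1, z t] : Fin 3 → F) ∈ conic c := by
      intro t
      refine ⟨?_, ?_⟩
      · intro h
        have := congrFun h 1
        simp at this
      · simp only [Matrix.cons_val_zero, Matrix.cons_val_one, Matrix.cons_val]
        linear_combination hz t + (c.a * t ^ 2 + t + c.b) * two
    have him : ∀ t : F, f ![t, 1, z t] ∈ arc T := by
      intro t
      rw [← harc]
      exact ⟨_, Or.inr (Set.mem_biUnion hc (hv t)), rfl⟩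
    let G : Finset F := Finset.univ.filter fun t => f ![t, 1, z t] ∉ nucleus
    have hG : 35 ≤ G.card := by
      have hbad : (Finset.univ.filter fun t : F => ¬ (f ![t, 1, z t] ∉ nucleus)).card ≤ 1 := by
        rw [Finset.card_le_one]
        intro t ht u hu
        simp only [Finset.mem_filter, Finset.mem_univ, true_and, not_not] at ht hu
        obtain ⟨ht0, ht1, ht2⟩ := ht
        obtain ⟨hu0, hu1, hu2⟩ := hu
        have ht3 : f ![t, 1, z t] 2 ≠ 0 := by
          intro h3
          apply ht0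
          funext i
          fin_cases i
          · exact ht1
          · exact ht2
          · exact h3
        have e : f ![u, 1, z u] = f ((σ.symm (f ![u, 1, z u] 2 / f ![t, 1, z t] 2)) •
            ![t, 1, z t]) := by
          rw [hsmul, RingEquiv.apply_symm_apply]
          funext i
          fin_cases i
          · show f ![u, 1, z u] 0 = _ * f ![t, 1, z t] 0
            rw [hu1, ht1, mul_zero]
          · show f ![u, 1, z u] 1 = _ * f ![t, 1, z t] 1
            rw [hu2, ht2, mul_zero]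
          · show f ![u, 1, z u] 2 = _ * f ![t, 1, z t] 2
            field_simp
        have e2 := hbij.1 e
        have e3 := congrFun e2 1
        have e4 := congrFun e2 0
        simp only [Matrix.cons_val_zero, Matrix.cons_val_one, Pi.smul_apply, smul_eq_mul,
          mul_one] at e3 e4
        rw [← e3, one_mul] at e4
        exact e4.symm
      have hsum := Finset.card_filter_add_card_filter_not (s := (Finset.univ : Finset F))
        (fun t : F => f ![t, 1, z t] ∉ nucleus)
      rw [Finset.card_univ, ← Nat.card_eq_fintype_card] at hsum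
      have : G.card = (Finset.univ.filter fun t : F => f ![t, 1, z t] ∉ nucleus).card := rfl
      omega
    have hd : ∀ t : F, ∃ d : Par F, t ∈ G → d ∈ T ∧ f ![t, 1, z t] ∈ conic d := by
      intro t
      by_cases ht : t ∈ G
      · have h1 := (Finset.mem_filter.1 ht).2
        rcases him t with h2 | h2
        · exact absurd h2 h1
        · simp only [Set.mem_iUnion, exists_prop] at h2
          obtain ⟨d, hd, h3⟩ := h2
          exact ⟨d, fun _ => ⟨hd, h3⟩⟩
      · exact ⟨c, fun h => absurd h ht⟩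
    choose d hd using hd
    obtain ⟨y, hy, hy2⟩ := Finset.exists_lt_card_fiber_of_mul_lt_card_of_maps_to (s := G)
      (t := hTfin.toFinset) (f := d) (n := 4)
      (fun t ht => by rw [Set.Finite.mem_toFinset]; exact (hd t ht).1)
      (by
        rw [← Set.ncard_eq_toFinset_card T hTfin, hT.card]
        omega)
    rw [Set.Finite.mem_toFinset] at hy
    refine ⟨y, hy, ?_⟩
    apply rel_of_five hbij.2 hadd hsmul hl (hT.l_ne y hy) (G.filter fun t => d t = y) hy2
    intro t ht
    obtain ⟨ht1, ht2⟩ := Finset.mem_filter.1 ht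
    refine ⟨z t, hz t, ?_⟩
    rw [← ht2]
    exact (hd t ht1).2
  obtain ⟨κ, hκdef⟩ : ∃ κ, κ = ent f 0 0 * ent f 1 1 + ent f 0 1 * ent f 1 0 := ⟨_, rfl⟩
  obtain ⟨c1, hc1, -, -, -⟩ := exists_two hS
  obtain ⟨d1, hd1, -, -, hκ, hr1⟩ := key c1 hc1
  rw [← hκdef] at hκ
  have hm : ent f 2 2 ≠ 0 := by
    intro h
    have := hr1.rl
    rw [h, ← hκdef] at this
    have h3 : κ * σ c1.l = 0 := by rw [← this]; ring
    rcases mul_eq_zero.1 h3 with h4 | h4
    · exact hκ h4
    · exact hS.l_ne _ hc1 (by simpa using h4)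
  refine ⟨σ.symm ((α * ent f 0 0 ^ 2 + ent f 0 0 * ent f 1 0 + ent f 1 0 ^ 2) / κ),
    σ.symm ((α * ent f 0 1 ^ 2 + ent f 0 1 * ent f 1 1 + ent f 1 1 ^ 2) / κ),
    σ.symm (ent f 2 0 ^ 2 / ent f 2 2 ^ 2), σ.symm (ent f 2 1 ^ 2 / ent f 2 2 ^ 2),
    fun c hc => ?_⟩
  obtain ⟨d, hd, -, -, -, hr⟩ := key c hc
  obtain ⟨hda, hdb⟩ := hTα d hd
  have e1 := hr.ra
  have e2 := hr.rb
  have e3 := hr.rl
  rw [← hκdef] at e1 e2 e3
  rw [hda, hdb] at e1 e2
  have e4 : d.l = κ * σ c.l / ent f 2 2 ^ 2 := by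
    rw [← e3]; field_simp
  rw [e4] at e1 e2
  constructor
  · apply σ.injective
    rw [map_add, map_mul, RingEquiv.apply_symm_apply, RingEquiv.apply_symm_apply]
    apply mul_left_cancel₀ hκ
    rw [← e1]
    field_simp
  · apply σ.injective
    rw [map_add, map_mul, RingEquiv.apply_symm_apply, RingEquiv.apply_symm_apply]
    apply mul_left_cancel₀ hκ
    rw [← e2]
    field_simp

end Pool.Agent.NH11.Ma
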