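import Pool.Agent.NH11.Ma.Den

/-! A proper closed set of seven conics with an induced group of order seven, for `7 ∣ h`. -/

open Polynomial

namespace Pool.Agent.NH11.Ma

variable {F : Type*} [Field F]

theorem exists_tr_one [CharP F 2] [Finite F] {h : ℕ} (h0 : h ≠ 0) (hF : ∀ x : F, x ^ 2 ^ h = x)
    (hcard : Nat.card F = 2 ^ h) : ∃ y : F, tr h y = 1 := by
  set P : F[X] := ∑ i ∈ Finset.range h, X ^ 2 ^ i with hP
  have hdeg : P.natDegree ≤ 2 ^ (h - 1) := by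
    apply Polynomial.natDegree_sum_le_of_forall_le
    intro i hi
    rw [natDegree_X_pow]
    have := Finset.mem_range.1 hi
    exact Nat.pow_le_pow_right (by norm_num) (by omega)
  have hne : P ≠ 0 := by
    intro h1
    have h2 : P.coeff 1 = 1 := by
      rw [hP, finset_sum_coeff]
      rw [Finset.sum_eq_single 0]
      · simp
      · intro i _ hi
        rw [coeff_X_pow, if_neg]
        have : 1 < 2 ^ i := Nat.one_lt_two_pow hi
        omega
      · intro h3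
        exact absurd (Finset.mem_range.2 (Nat.pos_of_ne_zero h0)) h3
    rw [h1, coeff_zero] at h2
    exact zero_ne_one h2
  obtain ⟨y, hy⟩ : ∃ y : F, P.eval y ≠ 0 := by
    by_contra hcon
    push Not at hcon
    apply hne
    have := Fintype.ofFinite F
    apply Polynomial.eq_zero_of_natDegree_lt_card_of_eval_eq_zero' P Finset.univ
      (fun t _ => hcon t)
    rw [Finset.card_univ, ← Nat.card_eq_fintype_card, hcard]
    refine lt_of_le_of_lt hdeg ?_
    exact Nat.pow_lt_pow_right (by norm_num) (by omega)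
  have he : P.eval y = tr h y := by
    rw [hP, eval_finset_sum]
    simp [tr]
  rw [he] at hy
  refine ⟨y, ?_⟩
  have h1 : tr h y ^ 2 = tr h y := by
    have h2 := tr_sq hF y
    have h3 : tr h (y ^ 2) = tr h y ^ 2 := by
      have h5 := map_sum (frobenius F 2) (fun i => y ^ 2 ^ i) (Finset.range h)
      simp only [frobenius_def] at h5
      unfold tr
      rw [h5]
      refine Finset.sum_congr rfl fun i _ => ?_
      rw [← pow_mul, ← pow_mul, mul_comm]
    rw [← h3, h2]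
  have h4 : tr h y * (tr h y - 1) = 0 := by linear_combination h1
  rcases mul_eq_zero.1 h4 with h5 | h5
  · exact absurd h5 hy
  · exact sub_eq_zero.1 h5

theorem exists_theta [CharP F 2] [Finite F] {m : ℕ} (m0 : m ≠ 0)
    (hF : ∀ x : F, x ^ 2 ^ (7 * m) = x) (hcard : Nat.card F = 2 ^ (7 * m)) :
    ∃ θ : F, θ ≠ 0 ∧ θ ^ 2 ^ (3 * m) + θ ^ 2 ^ m + θ = 0 := by
  have two : (2 : F) = 0 := CharTwo.two_eq_zero
  set P : F[X] := X ^ 2 ^ (4 * m) + X ^ 2 ^ (2 * m) + X ^ 2 ^ m + X with hP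
  have hdeg : P.natDegree ≤ 2 ^ (4 * m) := by
    have e1 : 2 ^ (2 * m) ≤ 2 ^ (4 * m) := Nat.pow_le_pow_right (by norm_num) (by omega)
    have e2 : 2 ^ m ≤ 2 ^ (4 * m) := Nat.pow_le_pow_right (by norm_num) (by omega)
    have e3 : 1 ≤ 2 ^ (4 * m) := Nat.one_le_two_pow
    rw [hP]
    refine (natDegree_add_le _ _).trans (max_le ?_ (by rw [natDegree_X]; exact e3))
    refine (natDegree_add_le _ _).trans (max_le ?_ (by rw [natDegree_X_pow]; exact e2))
    refine (natDegree_add_le _ _).trans (max_le ?_ (by rw [natDegree_X_pow]; exact e1))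
    rw [natDegree_X_pow]
  have hne : P ≠ 0 := by
    intro h1
    have h2 : P.coeff 1 = 1 := by
      rw [hP]
      simp only [coeff_add, coeff_X_pow, coeff_X_one]
      have e1 : 1 < 2 ^ (4 * m) := Nat.one_lt_two_pow (by omega)
      have e2 : 1 < 2 ^ (2 * m) := Nat.one_lt_two_pow (by omega)
      have e3 : 1 < 2 ^ m := Nat.one_lt_two_pow m0
      rw [if_neg (by omega), if_neg (by omega), if_neg (by omega)]
      ring
    rw [h1, coeff_zero] at h2
    exact zero_ne_one h2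
  obtain ⟨y, hy⟩ : ∃ y : F, P.eval y ≠ 0 := by
    by_contra hcon
    push Not at hcon
    apply hne
    have := Fintype.ofFinite F
    apply Polynomial.eq_zero_of_natDegree_lt_card_of_eval_eq_zero' P Finset.univ
      (fun t _ => hcon t)
    rw [Finset.card_univ, ← Nat.card_eq_fintype_card, hcard]
    refine lt_of_le_of_lt hdeg ?_
    exact Nat.pow_lt_pow_right (by norm_num) (by omega)
  have he : P.eval y = y ^ 2 ^ (4 * m) + y ^ 2 ^ (2 * m) + y ^ 2 ^ m + y := by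
    rw [hP]; simp
  rw [he] at hy
  refine ⟨_, hy, ?_⟩
  have ap : ∀ (k : ℕ) (a b : F), (a + b) ^ 2 ^ k = a ^ 2 ^ k + b ^ 2 ^ k :=
    fun k a b => add_pow_char_pow a b 2 k
  have pp : ∀ (i j : ℕ) (a : F), (a ^ 2 ^ i) ^ 2 ^ j = a ^ 2 ^ (i + j) := fun i j a => by
    rw [← pow_mul, ← pow_add]
  rw [ap, ap, ap, ap, ap, ap, pp, pp, pp, pp, pp, pp]
  rw [show 4 * m + 3 * m = 7 * m by ring, hF, show 2 * m + 3 * m = 5 * m by ring,
    show m + 3 * m = 4 * m by ring, show 4 * m + m = 5 * m by ring,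
    show 2 * m + m = 3 * m by ring, show m + m = 2 * m by ring]
  linear_combination (y + y ^ 2 ^ (5 * m) + y ^ 2 ^ (4 * m) + y ^ 2 ^ (3 * m) + y ^ 2 ^ (2 * m) +
    y ^ 2 ^ m) * two

/-- The relative trace over the fixed field of `x ↦ x ^ 2 ^ m`. -/
def rt (m : ℕ) (x : F) : F := ∑ k ∈ Finset.range 7, x ^ 2 ^ (k * m)

theorem tr_sum [CharP F 2] (m : ℕ) (s : Finset ℕ) (g : ℕ → F) :
    tr m (∑ i ∈ s, g i) = ∑ i ∈ s, tr m (g i) := by
  classical
  induction s using Finset.induction_on with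
  | empty => simp [tr_zero]
  | insert a s ha ih => rw [Finset.sum_insert ha, tr_add, ih, Finset.sum_insert ha]

theorem tr_tower [CharP F 2] (m : ℕ) (x : F) : tr (7 * m) x = tr m (rt m x) := by
  have key : ∀ n : ℕ, tr (n * m) x = ∑ k ∈ Finset.range n, tr m (x ^ 2 ^ (k * m)) := by
    intro n
    induction n with
    | zero => simp [tr]
    | succ n ih =>
      rw [Finset.sum_range_succ, ← ih, Nat.succ_mul]
      unfold tr
      rw [Finset.sum_range_add]
      congr 1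
      refine Finset.sum_congr rfl fun i _ => ?_
      rw [← pow_mul, ← pow_add]
  rw [key 7]
  unfold rt
  rw [tr_sum]

theorem exists_kappa [CharP F 2] [Finite F] {m : ℕ} (m0 : m ≠ 0)
    (hF : ∀ x : F, x ^ 2 ^ (7 * m) = x) (hcard : Nat.card F = 2 ^ (7 * m)) :
    ∃ κ : F, κ ^ 2 ^ m = κ ∧ tr m κ = 1 := by
  obtain ⟨y, hy⟩ := exists_tr_one (F := F) (by omega) hF hcard
  refine ⟨rt m y, ?_, by rw [← tr_tower, hy]⟩
  have pp : ∀ (i j : ℕ) (a : F), (a ^ 2 ^ i) ^ 2 ^ j = a ^ 2 ^ (i + j) := fun i j a => by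
    rw [← pow_mul, ← pow_add]
  have ap : ∀ (a b : F), (a + b) ^ 2 ^ m = a ^ 2 ^ m + b ^ 2 ^ m :=
    fun a b => add_pow_char_pow a b 2 m
  unfold rt
  simp only [Finset.sum_range_succ, Finset.sum_range_zero, zero_add]
  rw [ap, ap, ap, ap, ap, ap, pp, pp, pp, pp, pp, pp, pp]
  rw [show 6 * m + m = 7 * m by ring, hF, show 0 * m + m = 1 * m by ring,
    show 1 * m + m = 2 * m by ring, show 2 * m + m = 3 * m by ring,
    show 3 * m + m = 4 * m by ring, show 4 * m + m = 5 * m by ring,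
    show 5 * m + m = 6 * m by ring, show 0 * m = 0 by ring, pow_zero, pow_one]
  ring

theorem trace_example [CharP F 2] {m : ℕ} {κ l : F} (hκ : κ ^ 2 ^ m = κ) (hκ1 : tr m κ = 1)
    (hl : l ^ 2 ^ (3 * m) + l ^ 2 ^ m + l = 0) : tr (7 * m) (κ * (1 + l ^ 3)) = 1 := by
  have two : (2 : F) = 0 := CharTwo.two_eq_zero
  rw [tr_tower]
  have pp : ∀ (i j : ℕ) (a : F), (a ^ 2 ^ i) ^ 2 ^ j = a ^ 2 ^ (i + j) := fun i j a => by
    rw [← pow_mul, ← pow_add]
  have ap : ∀ (k : ℕ) (a b : F), (a + b) ^ 2 ^ k = a ^ 2 ^ k + b ^ 2 ^ k :=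
    fun k a b => add_pow_char_pow a b 2 k
  have hκk : ∀ k : ℕ, κ ^ 2 ^ (k * m) = κ := by
    intro k
    induction k with
    | zero => simp
    | succ k ih => rw [Nat.succ_mul, ← pp, ih, hκ]
  have e : rt m (κ * (1 + l ^ 3)) = κ := by
    unfold rt
    have h1 : ∀ k, (κ * (1 + l ^ 3)) ^ 2 ^ (k * m) = κ * (1 + (l ^ 2 ^ (k * m)) ^ 3) := by
      intro k
      rw [mul_pow, hκk, ap, one_pow, ← pow_mul, ← pow_mul, mul_comm 3]
    simp only [h1, Finset.sum_range_succ, Finset.sum_range_zero, zero_add]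
    obtain ⟨a0, ha0⟩ : ∃ a0, a0 = l ^ 2 ^ (0 * m) := ⟨_, rfl⟩
    obtain ⟨a1, ha1⟩ : ∃ a1, a1 = l ^ 2 ^ (1 * m) := ⟨_, rfl⟩
    obtain ⟨a2, ha2⟩ : ∃ a2, a2 = l ^ 2 ^ (2 * m) := ⟨_, rfl⟩
    obtain ⟨a3, ha3⟩ : ∃ a3, a3 = l ^ 2 ^ (3 * m) := ⟨_, rfl⟩
    obtain ⟨a4, ha4⟩ : ∃ a4, a4 = l ^ 2 ^ (4 * m) := ⟨_, rfl⟩
    obtain ⟨a5, ha5⟩ : ∃ a5, a5 = l ^ 2 ^ (5 * m) := ⟨_, rfl⟩
    obtain ⟨a6, ha6⟩ : ∃ a6, a6 = l ^ 2 ^ (6 * m) := ⟨_, rfl⟩
    have s0 : l = a0 := by rw [ha0]; simp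
    have r3 : a3 = a1 + a0 := by
      rw [ha3, ha1, ← s0, one_mul]
      linear_combination hl - (l ^ 2 ^ m + l) * two
    have next : ∀ k : ℕ, l ^ 2 ^ ((k + 3) * m) = l ^ 2 ^ ((k + 1) * m) + l ^ 2 ^ (k * m) := by
      intro k
      have h2 : l ^ 2 ^ (3 * m) = l ^ 2 ^ m + l := by
        linear_combination hl - (l ^ 2 ^ m + l) * two
      rw [show (k + 3) * m = 3 * m + k * m by ring, ← pp, h2, ap, pp,
        show m + k * m = (k + 1) * m by ring]
    have r4 : a4 = a2 + a1 := by rw [ha4, ha2, ha1]; exact next 1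
    have r5 : a5 = a3 + a2 := by rw [ha5, ha3, ha2]; exact next 2
    have r6 : a6 = a4 + a3 := by rw [ha6, ha4, ha3]; exact next 3
    rw [← ha0, ← ha1, ← ha2, ← ha3, ← ha4, ← ha5, ← ha6, r6, r5, r4, r3]
    linear_combination κ * (3 + (2 * a0 ^ 3 + 6 * a1 ^ 3 + 2 * a2 ^ 3 + 6 * a0 ^ 2 * a1 +
      9 * a0 * a1 ^ 2 + 9 * a1 ^ 2 * a2 + 6 * a1 * a2 ^ 2 + 3 * a0 ^ 2 * a2 + 3 * a0 * a2 ^ 2 +
      9 * a0 * a1 * a2)) * two
  rw [e, hκ1]

/-- The additive group spanned by `θ`, `σ θ` and `σ² θ`. -/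
def span3 [CharP F 2] (x y z : F) : AddSubgroup F where
  carrier := {l | ∃ u v w : F, (u = 0 ∨ u = 1) ∧ (v = 0 ∨ v = 1) ∧ (w = 0 ∨ w = 1) ∧
    l = u * x + v * y + w * z}
  zero_mem' := ⟨0, 0, 0, Or.inl rfl, Or.inl rfl, Or.inl rfl, by ring⟩
  add_mem' := by
    have two : (2 : F) = 0 := CharTwo.two_eq_zero
    have key : ∀ u v : F, (u = 0 ∨ u = 1) → (v = 0 ∨ v = 1) → (u + v = 0 ∨ u + v = 1) := by
      rintro u v (rfl | rfl) (rfl | rfl)
      · left; ring
      · right; ring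
      · right; ring
      · left; linear_combination two
    rintro a b ⟨u, v, w, hu, hv, hw, rfl⟩ ⟨u', v', w', hu', hv', hw', rfl⟩
    exact ⟨u + u', v + v', w + w', key _ _ hu hu', key _ _ hv hv', key _ _ hw hw', by ring⟩
  neg_mem' := by
    rintro a ha
    rw [CharTwo.neg_eq]
    exact ha

theorem card_span3 [CharP F 2] {x y z : F}
    (h : ∀ u v w : F, (u = 0 ∨ u = 1) → (v = 0 ∨ v = 1) → (w = 0 ∨ w = 1) →
      u * x + v * y + w * z = 0 → u = 0 ∧ v = 0 ∧ w = 0) : Nat.card (span3 x y z) = 8 := by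
  have two : (2 : F) = 0 := CharTwo.two_eq_zero
  let b : Bool → F := fun t => if t then 1 else 0
  have hb : ∀ t, b t = 0 ∨ b t = 1 := by
    intro t; cases t
    · left; rfl
    · right; rfl
  have hbi : ∀ s t, b s + b t = 0 → s = t := by
    intro s t hst
    cases s <;> cases t <;> simp [b] at hst ⊢
  have hbs : ∀ s t, b s + b t = 0 ∨ b s + b t = 1 := by
    intro s t
    cases s <;> cases t <;> simp [b, CharTwo.add_self_eq_zero]
  let e : Bool × Bool × Bool → span3 x y z := fun t =>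
    ⟨b t.1 * x + b t.2.1 * y + b t.2.2 * z, b t.1, b t.2.1, b t.2.2, hb _, hb _, hb _, rfl⟩
  have he : Function.Bijective e := by
    constructor
    · rintro ⟨s1, s2, s3⟩ ⟨t1, t2, t3⟩ hst
      have h1 : b s1 * x + b s2 * y + b s3 * z = b t1 * x + b t2 * y + b t3 * z :=
        congrArg Subtype.val hst
      obtain ⟨k1, k2, k3⟩ := h (b s1 + b t1) (b s2 + b t2) (b s3 + b t3) (hbs _ _) (hbs _ _)
        (hbs _ _) (by linear_combination h1 + (b t1 * x + b t2 * y + b t3 * z) * two)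
      rw [hbi _ _ k1, hbi _ _ k2, hbi _ _ k3]
    · rintro ⟨_, u, v, w, hu, hv, hw, rfl⟩
      have hex : ∀ u : F, (u = 0 ∨ u = 1) → ∃ t, b t = u := by
        rintro u (rfl | rfl)
        · exact ⟨false, rfl⟩
        · exact ⟨true, rfl⟩
      obtain ⟨t1, h1⟩ := hex u hu
      obtain ⟨t2, h2⟩ := hex v hv
      obtain ⟨t3, h3⟩ := hex w hw
      exact ⟨(t1, t2, t3), Subtype.ext (by simp only [e, h1, h2, h3])⟩
  rw [← Nat.card_congr (Equiv.ofBijective e he)]
  simp [Nat.card_eq_fintype_card]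

/-- The example. -/
def exS [CharP F 2] (κ x y z : F) : Set (Par F) :=
  {c | c.a = κ ∧ c.b = 1 + c.l ^ 3 ∧ c.l ≠ 0 ∧ c.l ∈ span3 x y z}

theorem exS_closed [CharP F 2] [Finite F] {m : ℕ} {κ x y z : F} (hκ : κ ^ 2 ^ m = κ)
    (hκ1 : tr m κ = 1)
    (h : ∀ u v w : F, (u = 0 ∨ u = 1) → (v = 0 ∨ v = 1) → (w = 0 ∨ w = 1) →
      u * x + v * y + w * z = 0 → u = 0 ∧ v = 0 ∧ w = 0)
    (hl : ∀ l ∈ span3 x y z, l ^ 2 ^ (3 * m) + l ^ 2 ^ m + l = 0) :
    IsClosedSeven (7 * m) (exS κ x y z) := by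
  refine ⟨fun c hc => hc.2.2.1, ?_, ?_, ?_, ?_⟩
  · rintro c ⟨h1, h2, -, h4⟩
    rw [h1, h2]
    exact trace_example hκ hκ1 (hl _ h4)
  · rintro ⟨a, b, l⟩ ⟨h1, h2, -, h4⟩ ⟨a', b', l'⟩ ⟨h1', h2', -, h4'⟩ hne hll
    apply hne
    simp only at h1 h2 h1' h2' hll
    rw [h1, h2, h1', h2', hll]
  · rintro ⟨a, b, l⟩ ⟨h1, h2, h3, h4⟩ ⟨a', b', l'⟩ ⟨h1', h2', h3', h4'⟩ hne
    simp only at h1 h2 h3 h4 h1' h2' h3' h4'
    have hs : l + l' ≠ 0 := by
      intro h0
      apply hne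
      rw [h1, h2, h1', h2', add_eq_zero2 h0]
    refine ⟨?_, ?_, hs, (span3 x y z).add_mem h4 h4'⟩
    · show (a * l + a' * l') / (l + l') = κ
      rw [h1, h1', ← mul_add, mul_div_cancel_right₀ _ hs]
    · show (b * l + b' * l') / (l + l') = 1 + (l + l') ^ 3
      rw [h2, h2', div_eq_iff hs]
      have two : (2 : F) = 0 := CharTwo.two_eq_zero
      linear_combination -(2 * l ^ 3 * l' + 3 * l ^ 2 * l' ^ 2 + 2 * l * l' ^ 3) * two
  · have h8 := card_span3 h
    have e : Option (exS κ x y z) ≃ span3 x y z := by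
      refine Equiv.ofBijective (fun o => match o with
        | none => 0
        | some c => ⟨c.1.l, c.2.2.2.2⟩) ⟨?_, ?_⟩
      · intro a b hab
        match a, b with
        | none, none => rfl
        | none, some c =>
          exfalso
          exact c.2.2.2.1 (congrArg Subtype.val hab).symm
        | some c, none =>
          exfalso
          exact c.2.2.2.1 (congrArg Subtype.val hab)
        | some ⟨⟨a, b, l⟩, h1, h2, h3, h4⟩, some ⟨⟨a', b', l'⟩, h1', h2', h3', h4'⟩ =>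
          have h5 : l = l' := congrArg Subtype.val hab
          simp only at h1 h2 h1' h2'
          subst h1 h2 h1' h5 h2'
          rfl
      · rintro ⟨l, hl⟩
        by_cases h0 : l = 0
        · exact ⟨none, Subtype.ext h0.symm⟩
        · exact ⟨some ⟨⟨κ, 1 + l ^ 3, l⟩, rfl, rfl, h0, hl⟩, rfl⟩
    rw [← Nat.card_congr e] at h8
    have : Finite (exS κ x y z) := by
      have := Finite.of_equiv _ e.symm
      exact Finite.of_injective (some : exS κ x y z → Option (exS κ x y z))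
        (Option.some_injective _)
    rw [Finite.card_option] at h8
    have h9 : Nat.card (exS κ x y z) = (exS κ x y z).ncard := rfl
    omega

end Pool.Agent.NH11.Ma
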