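import Pool.Agent.NH11.Ma.Ex

/-! The main theorem. -/

namespace Pool.Agent.NH11.Ma

variable {F : Type*} [Field F]

theorem indep [CharP F 2] {θ : F} {m : ℕ} (h0 : θ ≠ 0)
    (hθ : θ ^ 2 ^ (3 * m) + θ ^ 2 ^ m + θ = 0) :
    ∀ u v w : F, (u = 0 ∨ u = 1) → (v = 0 ∨ v = 1) → (w = 0 ∨ w = 1) →
      u * θ + v * θ ^ 2 ^ m + w * θ ^ 2 ^ (2 * m) = 0 → u = 0 ∧ v = 0 ∧ w = 0 := by
  have two : (2 : F) = 0 := CharTwo.two_eq_zero
  have pp : ∀ (i j : ℕ) (a : F), (a ^ 2 ^ i) ^ 2 ^ j = a ^ 2 ^ (i + j) := fun i j a => by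
    rw [← pow_mul, ← pow_add]
  have hinj : ∀ a b : F, a ^ 2 ^ m = b ^ 2 ^ m → a = b := by
    intro a b h
    have : (a + b) ^ 2 ^ m = 0 := by
      rw [add_pow_char_pow, h, CharTwo.add_self_eq_zero]
    exact add_eq_zero2 (pow_eq_zero_iff (by positivity) |>.1 this)
  obtain ⟨t1, h1⟩ : ∃ t1, t1 = θ ^ 2 ^ m := ⟨_, rfl⟩
  obtain ⟨t2, h2⟩ : ∃ t2, t2 = θ ^ 2 ^ (2 * m) := ⟨_, rfl⟩
  obtain ⟨t3, h3⟩ : ∃ t3, t3 = θ ^ 2 ^ (3 * m) := ⟨_, rfl⟩
  have s2 : t1 ^ 2 ^ m = t2 := by rw [h1, pp, h2]; congr 2; ring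
  have s3 : t2 ^ 2 ^ m = t3 := by rw [h2, pp, h3]; congr 2; ring
  rw [← h3, ← h1] at hθ
  have z1 : t1 ≠ 0 := by rw [h1]; exact pow_ne_zero _ h0
  have z2 : t2 ≠ 0 := by rw [h2]; exact pow_ne_zero _ h0
  have n01 : θ ≠ t1 := by
    intro h
    have a2 : t1 = t2 := by
      rw [← s2, ← h]
      exact h.trans h1
    have a3 : t2 = t3 := by
      rw [← s3, ← a2, s2, a2]
    apply h0
    have e3 : t3 = θ := by rw [← a3, ← a2, ← h]
    rw [e3, ← h] at hθ
    linear_combination hθ - θ * two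
  have n12 : t1 ≠ t2 := by
    intro h
    apply n01
    apply hinj
    rw [← h1, s2]
    exact h
  have n02 : θ ≠ t2 := by
    intro h
    apply h0
    have e3 : t3 = t1 := by rw [← s3, ← h, h1]
    rw [e3] at hθ
    linear_combination hθ - t1 * two
  rintro u v w (rfl | rfl) (rfl | rfl) (rfl | rfl) h <;> rw [← h1, ← h2] at h
  · exact ⟨rfl, rfl, rfl⟩
  · exfalso; apply z2; linear_combination h
  · exfalso; apply z1; linear_combination h
  · exfalso; apply n12; linear_combination h - t2 * two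
  · exfalso; apply h0; linear_combination h
  · exfalso; apply n02; linear_combination h - t2 * two
  · exfalso; apply n01; linear_combination h - t1 * two
  · exfalso
    apply n12
    apply hinj
    rw [s2, s3]
    linear_combination h - hθ

theorem example_seven [CharP F 2] [Finite F] {m : ℕ} (m0 : m ≠ 0)
    (hF : ∀ x : F, x ^ 2 ^ (7 * m) = x) (hcard : Nat.card F = 2 ^ (7 * m)) :
    ∃ S : Set (Par F), IsClosedSeven (7 * m) S ∧ ¬ IsDenniston (7 * m) S ∧
      Nat.card (inducedGroup S) = 7 := by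
  have two : (2 : F) = 0 := CharTwo.two_eq_zero
  have h70 : 7 * m ≠ 0 := by omega
  obtain ⟨κ, hκ, hκ1⟩ := exists_kappa m0 hF hcard
  obtain ⟨θ, hθ0, hθ⟩ := exists_theta m0 hF hcard
  have hind := indep hθ0 hθ
  obtain ⟨x, hx⟩ : ∃ x, x = θ := ⟨_, rfl⟩
  obtain ⟨y, hy⟩ : ∃ y, y = θ ^ 2 ^ m := ⟨_, rfl⟩
  obtain ⟨z, hz⟩ : ∃ z, z = θ ^ 2 ^ (2 * m) := ⟨_, rfl⟩
  have pp : ∀ (i j : ℕ) (a : F), (a ^ 2 ^ i) ^ 2 ^ j = a ^ 2 ^ (i + j) := fun i j a => by
    rw [← pow_mul, ← pow_add]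
  have ap : ∀ (k : ℕ) (a b : F), (a + b) ^ 2 ^ k = a ^ 2 ^ k + b ^ 2 ^ k :=
    fun k a b => add_pow_char_pow a b 2 k
  rw [← hy, ← hz, ← hx] at hind
  have sx : x ^ 2 ^ m = y := by rw [hx, hy]
  have sy : y ^ 2 ^ m = z := by rw [hy, hz, pp]; congr 2; ring
  have sz : z ^ 2 ^ m = x + y := by
    rw [hz, pp, hx, hy, show 2 * m + m = 3 * m by ring]
    linear_combination hθ - (θ ^ 2 ^ m + θ) * two
  have u01 : ∀ (u : F) (k : ℕ), (u = 0 ∨ u = 1) → u ^ 2 ^ k = u := by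
    rintro u k (rfl | rfl)
    · exact zero_pow (by positivity)
    · exact one_pow _
  have hspan : ∀ l ∈ span3 x y z, l ^ 2 ^ m ∈ span3 x y z := by
    rintro _ ⟨u, v, w, hu, hv, hw, rfl⟩
    rw [ap, ap, mul_pow, mul_pow, mul_pow, sx, sy, sz, u01 u m hu, u01 v m hv, u01 w m hw]
    have hxm : x ∈ span3 x y z := ⟨1, 0, 0, Or.inr rfl, Or.inl rfl, Or.inl rfl, by ring⟩
    have hym : y ∈ span3 x y z := ⟨0, 1, 0, Or.inl rfl, Or.inr rfl, Or.inl rfl, by ring⟩
    have hzm : z ∈ span3 x y z := ⟨0, 0, 1, Or.inl rfl, Or.inl rfl, Or.inr rfl, by ring⟩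
    have hmul : ∀ u a : F, (u = 0 ∨ u = 1) → a ∈ span3 x y z → u * a ∈ span3 x y z := by
      rintro u a (rfl | rfl) ha
      · rw [zero_mul]; exact (span3 x y z).zero_mem
      · rw [one_mul]; exact ha
    exact (span3 x y z).add_mem ((span3 x y z).add_mem (hmul u y hu hym) (hmul v z hv hzm))
      (hmul w _ hw ((span3 x y z).add_mem hxm hym))
  have hker : ∀ l ∈ span3 x y z, l ^ 2 ^ (3 * m) + l ^ 2 ^ m + l = 0 := by
    have e1 : ∀ a : F, a ^ 2 ^ (3 * m) = ((a ^ 2 ^ m) ^ 2 ^ m) ^ 2 ^ m := by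
      intro a
      rw [pp, pp]; congr 2; ring
    rintro _ ⟨u, v, w, hu, hv, hw, rfl⟩
    rw [e1]
    simp only [ap, mul_pow, sx, sy, sz, u01 u m hu, u01 v m hv, u01 w m hw]
    linear_combination (u * x + v * y + w * z + u * y + v * z + w * y + w * x) * two
  have hS := exS_closed hκ hκ1 hind hker
  set S := exS κ x y z with hSdef
  have hmemiff : ∀ c : Par F, c ∈ S ↔ c.a = κ ∧ c.b = 1 + c.l ^ 3 ∧ c.l ≠ 0 ∧
      c.l ∈ span3 x y z := fun c => Iff.rfl
  have hcard36 : 36 ≤ Nat.card F := by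
    rw [hcard]
    calc 36 ≤ 2 ^ 7 := by norm_num
      _ ≤ 2 ^ (7 * m) := Nat.pow_le_pow_right (by norm_num) (by omega)
  have hnA : ¬ IsAffine S := by
    rintro ⟨a0, b0, p, q, hA⟩
    classical
    have hfin : (span3 x y z : Set F).Finite := Set.toFinite _
    have hc7 : (hfin.toFinset.erase 0).card = 7 := by
      rw [Finset.card_erase_of_mem (by
        rw [Set.Finite.mem_toFinset]; exact (span3 x y z).zero_mem)]
      rw [← Set.ncard_eq_toFinset_card _ hfin]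
      have : (span3 x y z : Set F).ncard = 8 := card_span3 hind
      rw [this]
    obtain ⟨-, h3, -⟩ := quartic_zero (c4 := 0) (c3 := (1 : F)) (c2 := 0) (c1 := q)
      (c0 := 1 + b0) (hfin.toFinset.erase 0) (by rw [hc7]; norm_num) (by
        intro l hl
        obtain ⟨hl0, hl1⟩ := Finset.mem_erase.1 hl
        rw [Set.Finite.mem_toFinset] at hl1
        have h5 := (hA (⟨κ, 1 + l ^ 3, l⟩ : Par F) ⟨rfl, rfl, hl0, hl1⟩).2
        simp only at h5
        linear_combination h5 + (b0 + l * q) * two)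
    exact one_ne_zero h3
  have hnD : ¬ IsDenniston (7 * m) S := fun h =>
    hnA (affine_of_denniston h70 hF hcard36 hS h)
  refine ⟨S, hS, hnD, ?_⟩
  -- the Frobenius map
  have hfinS : Finite S := Set.finite_of_ncard_ne_zero (by rw [hS.card]; norm_num)
  let σ : F ≃+* F := iterateFrobeniusEquiv F 2 m
  have hσ : ∀ a : F, σ a = a ^ 2 ^ m := fun a => iterateFrobeniusEquiv_def F 2 m a
  let g : S → S := fun c => ⟨⟨κ, 1 + (c.1.l ^ 2 ^ m) ^ 3, c.1.l ^ 2 ^ m⟩, rfl, rfl,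
    pow_ne_zero _ c.2.2.2.1, hspan _ c.2.2.2.2⟩
  have hginj : Function.Injective g := by
    intro c d hcd
    have h1 : c.1.l ^ 2 ^ m = d.1.l ^ 2 ^ m :=
      congrArg (fun e : S => e.1.l) hcd
    rw [← hσ, ← hσ] at h1
    have h2 := σ.injective h1
    by_contra hne
    exact hS.l_inj _ c.2 _ d.2 (fun h => hne (Subtype.ext h)) h2
  let π : Equiv.Perm S := Equiv.ofBijective g (Finite.injective_iff_bijective.1 hginj)
  have hπ : ∀ c, π c = g c := fun c => rfl
  have hπl : ∀ c, (π c).1.l = c.1.l ^ 2 ^ m := fun c => rfl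
  let f : (Fin 3 → F) → (Fin 3 → F) := fun v i => σ (v i)
  have hfbij : Function.Bijective f := by
    constructor
    · intro v w h
      funext i
      exact σ.injective (congrFun h i)
    · intro w
      exact ⟨fun i => σ.symm (w i), funext fun i => σ.apply_symm_apply _⟩
  have hf0 : ∀ v, v ≠ 0 ↔ f v ≠ 0 := by
    intro v
    have f00 : f 0 = 0 := funext fun i => map_zero σ
    exact not_congr ⟨fun h => by rw [h, f00], fun h => hfbij.1 (h.trans f00.symm)⟩
  have hcon : ∀ (c : S) (v : Fin 3 → F), v ∈ conic c.1 ↔ f v ∈ conic (π c).1 := by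
    intro c v
    unfold conic
    simp only [Set.mem_setOf_eq]
    rw [hf0 v]
    have e : (π c).1.a * (f v 0) ^ 2 + f v 0 * f v 1 + (π c).1.b * (f v 1) ^ 2 +
        (π c).1.l * (f v 2) ^ 2 =
        σ (c.1.a * v 0 ^ 2 + v 0 * v 1 + c.1.b * v 1 ^ 2 + c.1.l * v 2 ^ 2) := by
      rw [map_add, map_add, map_add, map_mul, map_mul, map_mul, map_mul, map_pow, map_pow,
        map_pow]
      have e1 : (π c).1.a = σ c.1.a := by
        rw [hσ, c.2.1, hκ]; rfl
      have e2 : (π c).1.b = σ c.1.b := by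
        rw [c.2.2.1, map_add, map_one, map_pow, hσ]; rfl
      have e3 : (π c).1.l = σ c.1.l := by rw [hσ]; rfl
      rw [e1, e2, e3]
    rw [e, map_eq_zero_iff σ σ.injective]
  have hnuc : ∀ v, v ∈ (nucleus : Set (Fin 3 → F)) ↔ f v ∈ (nucleus : Set (Fin 3 → F)) := by
    intro v
    unfold nucleus
    simp only [Set.mem_setOf_eq]
    rw [hf0 v]
    simp [f]
  have hmem : π ∈ inducedGroup S := by
    refine ⟨f, ⟨hfbij, fun v w => funext fun i => map_add σ _ _, σ,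
      fun a v => funext fun i => map_mul σ _ _⟩, ?_, fun c => ?_⟩
    · apply image_eq_of_iff hfbij.2
      intro v
      unfold arc
      simp only [Set.mem_union, Set.mem_iUnion, exists_prop]
      constructor
      · rintro (h1 | ⟨c, hc, h1⟩)
        · exact Or.inl ((hnuc v).1 h1)
        · exact Or.inr ⟨_, (π ⟨c, hc⟩).2, (hcon ⟨c, hc⟩ v).1 h1⟩
      · rintro (h1 | ⟨d, hd, h1⟩)
        · exact Or.inl ((hnuc v).2 h1)
        · obtain ⟨c, hc⟩ := π.surjective ⟨d, hd⟩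
          refine Or.inr ⟨c.1, c.2, (hcon c v).2 ?_⟩
          rw [hc]
          exact h1
    · exact image_eq_of_iff hfbij.2 (hcon c)
  have hπn : ∀ (n : ℕ) (c : S), ((π ^ n) c).1.l = c.1.l ^ 2 ^ (n * m) := by
    intro n
    induction n with
    | zero => intro c; simp
    | succ n ih =>
      intro c
      rw [pow_succ', Equiv.Perm.mul_apply, hπl, ih, pp, Nat.succ_mul]
  have h7 : π ^ 7 = 1 := by
    apply Equiv.ext
    intro c
    have h1 := hπn 7 c
    rw [hF] at h1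
    by_contra hne
    exact hS.l_inj _ ((π ^ 7) c).2 _ c.2 (fun h => hne (Subtype.ext h)) h1
  have hx0 : x ≠ 0 := by rw [hx]; exact hθ0
  have h1 : π ≠ 1 := by
    intro h
    have hxm : x ∈ span3 x y z := ⟨1, 0, 0, Or.inr rfl, Or.inl rfl, Or.inl rfl, by ring⟩
    have h2 := hπl ⟨⟨κ, 1 + x ^ 3, x⟩, rfl, rfl, hx0, hxm⟩
    rw [h] at h2
    have h3 : x = y := by rw [← sx]; exact h2
    have h4 := hind 1 1 0 (Or.inr rfl) (Or.inr rfl) (Or.inl rfl) (by
      rw [← h3]; linear_combination x * two)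
    exact one_ne_zero h4.1
  have : Fact (Nat.Prime 7) := ⟨by norm_num⟩
  have hord : orderOf π = 7 := orderOf_eq_prime h7 h1
  have hle := card_le h70 hF hS hnA
  have hdvd : 7 ∣ Nat.card (inducedGroup S) := by
    have h5 := orderOf_dvd_natCard (⟨π, hmem⟩ : inducedGroup S)
    rw [Subgroup.orderOf_mk, hord] at h5
    exact h5
  have hpos : 0 < Nat.card (inducedGroup S) := Nat.card_pos
  obtain ⟨k, hk⟩ := hdvd
  omega

/-- The main theorem. -/
theorem main (F : Type*) [Field F] (h : ℕ) (hcard : Nat.card F = 2 ^ h) :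
    (∀ S : Set (Par F), IsClosedSeven h S → ¬ IsDenniston h S →
      IsCyclic (inducedGroup S) ∧ Nat.card (inducedGroup S) ≤ 7) ∧
    ((∃ S : Set (Par F), IsClosedSeven h S ∧ ¬ IsDenniston h S ∧
      Nat.card (inducedGroup S) = 7) ↔ 7 ∣ h) := by
  have hfin : Finite F := Nat.finite_of_card_ne_zero (by rw [hcard]; positivity)
  have := Fintype.ofFinite F
  have h0 : h ≠ 0 := by
    rintro rfl
    have : 1 < Nat.card F := Finite.one_lt_card
    rw [hcard] at this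
    simp at this
  have hF : ∀ x : F, x ^ 2 ^ h = x := by
    intro x
    rw [← hcard, Nat.card_eq_fintype_card]
    exact FiniteField.pow_card x
  have hchar : CharP F 2 := by
    obtain ⟨p, hp⟩ := CharP.exists F
    have hprime : p.Prime := CharP.char_is_prime F p
    have : Fact p.Prime := ⟨hprime⟩
    obtain ⟨n, -, hn⟩ := FiniteField.card F p
    rw [← Nat.card_eq_fintype_card, hcard] at hn
    have h2 : p ∣ 2 ^ h := by
      rw [hn]
      exact dvd_pow_self p n.pos.ne'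
    have h3 : p = 2 := (Nat.prime_dvd_prime_iff_eq hprime Nat.prime_two).1
      (hprime.dvd_of_dvd_pow h2)
    rw [h3] at hp
    exact hp
  have hA : ∀ S : Set (Par F), IsClosedSeven h S → ¬ IsDenniston h S → ¬ IsAffine S :=
    fun S hS hD hAf => hD (denniston_of_affine h0 hF hS hAf)
  refine ⟨fun S hS hD => ⟨cyclic h0 hF hS (hA S hS hD), card_le h0 hF hS (hA S hS hD)⟩, ?_, ?_⟩
  · rintro ⟨S, hS, hD, h7⟩
    exact seven_dvd h0 hF hS (hA S hS hD) h7
  · rintro ⟨m, rfl⟩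
    exact example_seven (by rintro rfl; exact h0 rfl) hF hcard

end Pool.Agent.NH11.Ma
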