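import Pool.Agent.NH11.Ma.Core

/-! The induced group is cyclic when the set of conics is not affine. -/

namespace Pool.Agent.NH11.Ma

variable {F : Type*} [Field F]

/-- `f` is a bijective semilinear map with automorphism `σ` that stabilises the arc and induces
the permutation `π`. -/
structure Induces (S : Set (Par F)) (f : (Fin 3 → F) → (Fin 3 → F)) (σ : F ≃+* F)
    (π : Equiv.Perm S) : Prop where
  bij : Function.Bijective f
  add : ∀ v w, f (v + w) = f v + f w
  smul : ∀ (x : F) (v : Fin 3 → F), f (x • v) = σ x • f v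
  arc : f '' arc S = arc S
  con : ∀ c : S, f '' conic c.1 = conic (π c).1

/-- The pairs of a permutation and an automorphism that come from one collineation. -/
def pairGroup (S : Set (Par F)) : Subgroup (Equiv.Perm S × RingAut F) where
  carrier := {x | ∃ f : (Fin 3 → F) → (Fin 3 → F), Induces S f x.2 x.1}
  mul_mem' := by
    rintro ⟨π, σ⟩ ⟨ρ, τ⟩ ⟨f, hf⟩ ⟨g, hg⟩
    refine ⟨f ∘ g, ⟨hf.bij.comp hg.bij, fun v w => ?_, fun x v => ?_, ?_, fun c => ?_⟩⟩
    · simp only [Function.comp, hg.add, hf.add]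
    · simp only [Function.comp, hg.smul, hf.smul]
      rfl
    · rw [Set.image_comp, hg.arc, hf.arc]
    · rw [Set.image_comp, hg.con, hf.con]; rfl
  one_mem' := ⟨id, ⟨Function.bijective_id, fun _ _ => rfl, fun _ _ => rfl, by simp,
    fun c => by simp⟩⟩
  inv_mem' := by
    rintro ⟨π, σ⟩ ⟨f, hf⟩
    obtain ⟨g, hgl, hgr⟩ := Function.bijective_iff_has_inverse.1 hf.bij
    have key : ∀ s : Set (Fin 3 → F), g '' (f '' s) = s := fun s => by
      rw [← Set.image_comp, show g ∘ f = id from funext hgl, Set.image_id]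
    refine ⟨g, ⟨Function.bijective_iff_has_inverse.2 ⟨f, hgr, hgl⟩, fun v w => ?_,
      fun x v => ?_, ?_, fun c => ?_⟩⟩
    · apply hf.bij.1
      rw [hgr, hf.add, hgr, hgr]
    · apply hf.bij.1
      rw [hgr, hf.smul, hgr]
      congr 1
      exact (σ.apply_symm_apply x).symm
    · conv_lhs => rw [← hf.arc]
      exact key _
    · have := hf.con (π⁻¹ c)
      rw [show π (π⁻¹ c) = c from π.apply_symm_apply c] at this
      simp only [Prod.fst_inv]
      rw [← this, key]

theorem card_ge {h : ℕ} {S : Set (Par F)} [Finite F] (hS : IsClosedSeven h S) :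
    7 ≤ Nat.card F := by
  have hfin : Finite S := Set.finite_of_ncard_ne_zero (by rw [hS.card]; norm_num)
  have : Function.Injective (fun c : S => c.1.l) := by
    intro c d hcd
    by_contra hne
    exact hS.l_inj c.1 c.2 d.1 d.2 (fun h => hne (Subtype.ext h)) hcd
  have h2 := Nat.card_le_card_of_injective _ this
  have h3 : Nat.card S = 7 := hS.card
  omega

theorem rel_of_induces [CharP F 2] [Finite F] {h : ℕ} (h0 : h ≠ 0) (hF : ∀ x : F, x ^ 2 ^ h = x)
    {S : Set (Par F)} (hS : IsClosedSeven h S) {f : (Fin 3 → F) → (Fin 3 → F)} {σ : F ≃+* F}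
    {π : Equiv.Perm S} (hf : Induces S f σ π) (c : S) :
    ent f 0 2 = 0 ∧ ent f 1 2 = 0 ∧ ent f 0 0 * ent f 1 1 + ent f 0 1 * ent f 1 0 ≠ 0 ∧
      Rel f σ c.1 (π c).1 := by
  have := Fintype.ofFinite F
  apply rel_of_five hf.bij.2 hf.add hf.smul (hS.l_ne _ c.2) (hS.l_ne _ (π c).2) Finset.univ
  · rw [Finset.card_univ, ← Nat.card_eq_fintype_card]
    have := card_ge hS
    omega
  · intro t _
    have hl := hS.l_ne _ c.2
    obtain ⟨z, hz⟩ := exists_sqrt h0 hF ((c.1.a * t ^ 2 + t + c.1.b) / c.1.l)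
    have hz' : c.1.l * z ^ 2 = c.1.a * t ^ 2 + t + c.1.b := by
      rw [hz]; field_simp
    refine ⟨z, hz', ?_⟩
    rw [← hf.con c]
    refine ⟨_, ⟨?_, ?_⟩, rfl⟩
    · intro h
      have := congrFun h 1
      simp at this
    · simp only [Matrix.cons_val_zero, Matrix.cons_val_one, Matrix.cons_val]
      have two : (2 : F) = 0 := CharTwo.two_eq_zero
      linear_combination hz' + (c.1.a * t ^ 2 + t + c.1.b) * two

/-- The multiplier by which a collineation acts on `λ`. -/
theorem exists_mult [CharP F 2] [Finite F] {h : ℕ} (h0 : h ≠ 0) (hF : ∀ x : F, x ^ 2 ^ h = x)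
    {S : Set (Par F)} (hS : IsClosedSeven h S) {f : (Fin 3 → F) → (Fin 3 → F)} {σ : F ≃+* F}
    {π : Equiv.Perm S} (hf : Induces S f σ π) :
    ∃ ω : F, ω ≠ 0 ∧ ∀ c : S, (π c).1.l = ω * σ c.1.l := by
  have hne : S.Nonempty := by
    apply Set.nonempty_of_ncard_ne_zero
    rw [hS.card]; norm_num
  obtain ⟨c1, hc1⟩ := hne
  obtain ⟨-, -, hκ, hr⟩ := rel_of_induces h0 hF hS hf ⟨c1, hc1⟩
  have hm : ent f 2 2 ≠ 0 := by
    intro h
    have := hr.rl
    rw [h] at this
    have h3 : (ent f 0 0 * ent f 1 1 + ent f 0 1 * ent f 1 0) * σ c1.l = 0 := by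
      rw [← this]; ring
    rcases mul_eq_zero.1 h3 with h4 | h4
    · exact hκ h4
    · exact hS.l_ne _ hc1 (by simpa using h4)
  refine ⟨(ent f 0 0 * ent f 1 1 + ent f 0 1 * ent f 1 0) / ent f 2 2 ^ 2, ?_, fun c => ?_⟩
  · exact div_ne_zero hκ (pow_ne_zero _ hm)
  · obtain ⟨-, -, -, hr⟩ := rel_of_induces h0 hF hS hf c
    have := hr.rl
    field_simp
    exact this

theorem affine_of_linear [CharP F 2] [Finite F] {h : ℕ} (h0 : h ≠ 0)
    (hF : ∀ x : F, x ^ 2 ^ h = x)
    {S : Set (Par F)} (hS : IsClosedSeven h S) {f : (Fin 3 → F) → (Fin 3 → F)}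
    {π : Equiv.Perm S} (hf : Induces S f (RingEquiv.refl F) π) {ω : F} (hω : ω ^ 3 = ω + 1)
    (hl : ∀ c : S, (π c).1.l = ω * c.1.l) : IsAffine S := by
  have hne : S.Nonempty := by
    apply Set.nonempty_of_ncard_ne_zero
    rw [hS.card]; norm_num
  obtain ⟨c1, hc1⟩ := hne
  obtain ⟨-, -, hκ, -⟩ := rel_of_induces h0 hF hS hf ⟨c1, hc1⟩
  have hr := fun c : S => (rel_of_induces h0 hF hS hf c).2.2.2
  have hcore := core h0 hF hS hω rfl hκ hl (m20 := ent f 2 0) (m21 := ent f 2 1)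
    (fun c => (hr c).ra) (fun c => (hr c).rb)
  exact affine_of_relations hS hω hl hcore

theorem one_of_linear [CharP F 2] [Finite F] {h : ℕ} (h0 : h ≠ 0) (hF : ∀ x : F, x ^ 2 ^ h = x)
    {S : Set (Par F)} (hS : IsClosedSeven h S) (hA : ¬ IsAffine S)
    {π : Equiv.Perm S} (hπ : (π, (1 : RingAut F)) ∈ pairGroup S) : π = 1 := by
  obtain ⟨f, hf⟩ := hπ
  obtain ⟨ω, hω0, hl⟩ := exists_mult h0 hF hS hf
  have hl' : ∀ c : S, (π c).1.l = ω * c.1.l := hl
  by_cases h1 : ω = 1
  · apply Equiv.ext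
    intro c
    have h2 := hl' c
    rw [h1, one_mul] at h2
    by_contra hne
    exact hS.l_inj _ (π c).2 _ c.2 (fun h => hne (Subtype.ext h)) h2
  exfalso
  have two : (2 : F) = 0 := CharTwo.two_eq_zero
  have hfin : Finite S := Set.finite_of_ncard_ne_zero (by rw [hS.card]; norm_num)
  have := Fintype.ofFinite S
  have h7 : ω ^ 7 = 1 := by
    have e1 := Equiv.prod_comp π (fun c : S => c.1.l)
    simp only [hl'] at e1
    rw [Finset.prod_mul_distrib, Finset.prod_const, Finset.card_univ,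
      ← Nat.card_eq_fintype_card, show Nat.card S = 7 from hS.card] at e1
    have e2 : (∏ c : S, c.1.l) ≠ 0 := Finset.prod_ne_zero_iff.2 fun c _ => hS.l_ne _ c.2
    exact mul_right_cancel₀ e2 (by rw [e1, one_mul])
  have hfac : (ω - 1) * ((ω ^ 3 - (ω + 1)) * (ω ^ 3 - (ω ^ 2 + 1))) = 0 := by
    linear_combination h7 + (ω ^ 3 - ω ^ 6) * two
  rcases mul_eq_zero.1 hfac with h2 | h2
  · exact h1 (sub_eq_zero.1 h2)
  rcases mul_eq_zero.1 h2 with h2 | h2
  · exact hA (affine_of_linear h0 hF hS hf (sub_eq_zero.1 h2) hl')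
  · have hinv : (π⁻¹, (1 : RingAut F)) ∈ pairGroup S := by
      have := (pairGroup S).inv_mem ⟨f, hf⟩
      simpa using this
    obtain ⟨g, hg⟩ := hinv
    refine hA (affine_of_linear h0 hF hS hg (ω := ω⁻¹) ?_ ?_)
    · field_simp
      linear_combination -(sub_eq_zero.1 h2) - ω ^ 2 * two
    · intro c
      have h3 := hl' (π⁻¹ c)
      rw [show π (π⁻¹ c) = c from π.apply_symm_apply c] at h3
      rw [h3]
      field_simp

/-- The induced group is the projection of the group of pairs. -/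
theorem mem_inducedGroup_iff {S : Set (Par F)} (π : Equiv.Perm S) :
    π ∈ inducedGroup S ↔ ∃ σ : RingAut F, (π, σ) ∈ pairGroup S := by
  constructor
  · rintro ⟨f, ⟨h1, h2, σ, h3⟩, h4, h5⟩
    exact ⟨σ, f, ⟨h1, h2, h3, h4, h5⟩⟩
  · rintro ⟨σ, f, hf⟩
    exact ⟨f, ⟨hf.bij, hf.add, σ, hf.smul⟩, hf.arc, hf.con⟩

theorem inducedGroup_eq {S : Set (Par F)} :
    inducedGroup S = (pairGroup S).map (MonoidHom.fst (Equiv.Perm S) (RingAut F)) := by
  ext π
  rw [mem_inducedGroup_iff]
  constructor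
  · rintro ⟨σ, h⟩
    exact ⟨(π, σ), h, rfl⟩
  · rintro ⟨⟨π', σ⟩, h, rfl⟩
    exact ⟨σ, h⟩

/-- Field automorphisms of a finite field of characteristic two form a cyclic group. -/
theorem ringAut_cyclic [CharP F 2] [Finite F] : IsCyclic (RingAut F) := by
  let _ := ZMod.algebra F 2
  have key : ∀ (σ : RingAut F) (r : ZMod 2), σ (algebraMap (ZMod 2) F r) =
      algebraMap (ZMod 2) F r := by
    intro σ r
    have : (σ.toRingHom.comp (algebraMap (ZMod 2) F)) = algebraMap (ZMod 2) F :=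
      Subsingleton.elim _ _
    exact congrArg (fun g : ZMod 2 →+* F => g r) this
  let φ : RingAut F →* Gal(F/(ZMod 2)) :=
    { toFun := fun σ => AlgEquiv.ofRingEquiv (f := σ) (key σ)
      map_one' := by ext x; rfl
      map_mul' := fun σ τ => by ext x; rfl }
  apply isCyclic_of_injective φ
  intro σ τ h
  ext x
  exact congrArg (fun g : Gal(F/(ZMod 2)) => g x) h

theorem ringAut_pow [CharP F 2] [Finite F] {h : ℕ} (hF : ∀ x : F, x ^ 2 ^ h = x) (σ : RingAut F) :
    σ ^ h = 1 := by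
  let _ := ZMod.algebra F 2
  have key : ∀ (σ : RingAut F) (r : ZMod 2), σ (algebraMap (ZMod 2) F r) =
      algebraMap (ZMod 2) F r := by
    intro σ r
    have : (σ.toRingHom.comp (algebraMap (ZMod 2) F)) = algebraMap (ZMod 2) F :=
      Subsingleton.elim _ _
    exact congrArg (fun g : ZMod 2 →+* F => g r) this
  obtain ⟨n, hn⟩ := (FiniteField.bijective_frobeniusAlgEquivOfAlgebraic_pow (ZMod 2) F).2
    (AlgEquiv.ofRingEquiv (f := σ) (key σ))
  have h1 : ∀ x : F, σ x = x ^ 2 ^ (n : ℕ) := by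
    intro x
    have := congrArg (fun g : Gal(F/(ZMod 2)) => g x) hn
    simp only [AlgEquiv.ofRingEquiv_apply] at this
    rw [← this]
    have e1 := congrFun (FiniteField.coe_frobeniusAlgEquivOfAlgebraic_iterate
      (K := ZMod 2) (L := F) (n : ℕ)) x
    rw [ZMod.card] at e1
    rw [← e1]
    rw [← AlgEquiv.coe_pow]
  have h2 : ∀ (m : ℕ) (x : F), (σ ^ m) x = x ^ 2 ^ ((n : ℕ) * m) := by
    intro m
    induction m with
    | zero => intro x; simp
    | succ m ih =>
      intro x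
      rw [pow_succ, RingAut.mul_apply, h1, ih, ← pow_mul, ← pow_add]
      congr 2
      ring
  ext x
  rw [h2, RingAut.one_apply]
  have h3 : ∀ (m : ℕ) (x : F), x ^ 2 ^ (m * h) = x := by
    intro m
    induction m with
    | zero => intro x; simp
    | succ m ih =>
      intro x
      rw [Nat.succ_mul, pow_add, pow_mul, ih, hF]
  exact h3 n x

end Pool.Agent.NH11.Ma
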